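import Pool.Agent.V7H53.SY.Pr
import Pool.Agent.W289.SL.LogEx

set_option autoImplicit false
set_option linter.unusedSectionVars false

/-!
# The two final theorems
-/

namespace Pool.Agent.V7H53.SY

open NumberField TensorProduct Pool.Agent.W289.SL Pool.Agent.W332.SL6 Pool.Agent.V7H53.SX
open Pool.Agent.W254.PA (exists_theta LgP Hyp LtE)

variable {p : ℕ} [Fact p.Prime]

/-- a Galois extension of `ℚ` receiving all embeddings of finitely many fields -/
lemma exists_bigN (p : ℕ) [Fact p.Prime] {n : ℕ} (H : Fin n → Type) [∀ i, Field (H i)]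
    [∀ i, NumberField (H i)] :
    ∃ (M : Type) (_ : Field M) (_ : NumberField M) (_ : IsGalois ℚ M) (inc : M →+* ℂ_[p]),
      ∀ (i : Fin n) (σ : H i →+* ℂ_[p]), ∃ τ : H i →+* M, inc.comp τ = σ := by
  have hN : ∀ i, IsNormalClosure ℚ (H i) (IntermediateField.normalClosure ℚ (H i) ℂ_[p]) :=
    fun i => Algebra.IsAlgebraic.isNormalClosure_normalClosure (fun x => IsAlgClosed.splits _)
  have hn : ∀ i, Normal ℚ (IntermediateField.normalClosure ℚ (H i) ℂ_[p]) :=
    fun i => (hN i).normal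
  let N : IntermediateField ℚ ℂ_[p] := ⨆ i, IntermediateField.normalClosure ℚ (H i) ℂ_[p]
  have hn' := @IntermediateField.normal_iSup ℚ ℂ_[p] _ _ _ (Fin n)
    (fun i => IntermediateField.normalClosure ℚ (H i) ℂ_[p])
    (fun i => by convert hn i; exact Subsingleton.elim _ _)
  have hn : Normal ℚ N := by
    convert hn'
    exact Subsingleton.elim _ _
  have hfd : FiniteDimensional ℚ N := IntermediateField.finiteDimensional_iSup_of_finite
  have hnf : NumberField N :=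
    { to_charZero := inferInstance
      to_finiteDimensional := by convert hfd }
  have hg : IsGalois ℚ N := {}
  refine ⟨N, inferInstance, hnf, by convert hg, (N.val : _ →+* ℂ_[p]), ?_⟩
  intro i σ
  let σ' : H i →ₐ[ℚ] ℂ_[p] := RingHom.toRatAlgHom σ
  let τ : H i →ₐ[ℚ] N.toSubalgebra := σ'.codRestrict _ (fun x =>
    (le_iSup (fun i => IntermediateField.normalClosure ℚ (H i) ℂ_[p]) i : _ ≤ N)
      (σ'.fieldRange_le_normalClosure ⟨x, rfl⟩))
  refine ⟨τ.toRingHom, ?_⟩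
  ext y
  rfl

/-- all embeddings of `F` come from automorphisms of `M` -/
lemma exists_gamma {F M : Type} [Field F] [NumberField F] [Field M] [NumberField M]
    [IsGalois ℚ M] [Algebra F M] (inc : M →+* ℂ_[p]) :
    ∃ γ : (F →+* ℂ_[p]) → (M ≃ₐ[ℚ] M),
      ∀ j, (inc.comp (γ j : M →+* M)).comp (algebraMap F M) = j := by
  have : Algebra.IsAlgebraic F M := Algebra.IsAlgebraic.tower_top (K := ℚ) F
  have h : ∀ j : F →+* ℂ_[p], ∃ g : M ≃ₐ[ℚ] M,
      (inc.comp (g : M →+* M)).comp (algebraMap F M) = j := by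
    intro j
    obtain ⟨σ, hσ⟩ := exists_ext (H := M) j
    obtain ⟨g, hg⟩ := exists_aut (K := ℚ) σ inc (Subsingleton.elim _ _)
    exact ⟨g, by rw [← hg, hσ]⟩
  choose γ hγ using h
  exact ⟨γ, hγ⟩

section signs

variable {F E : Type} [Field F] [NumberField F] [IsTotallyReal F] [Field E] [NumberField E]
  [Algebra F E] [IsGalois F E]

/-- the character `ψ` is odd at the real place `v` -/
def OddAt (ψ : (E ≃ₐ[F] E) →* ℂ_[p]ˣ) (v : F →+* ℂ) : Prop :=
  ∀ (s : E →+* ℂ) (g : E ≃ₐ[F] E), s.comp (algebraMap F E) = v →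
    (∀ y, s (g y) = (starRingEnd ℂ) (s y)) → ψ g = -1

/-- the character `ψ` is even at the real place `v` -/
def EvenAt (ψ : (E ≃ₐ[F] E) →* ℂ_[p]ˣ) (v : F →+* ℂ) : Prop :=
  ∀ (s : E →+* ℂ) (g : E ≃ₐ[F] E), s.comp (algebraMap F E) = v →
    (∀ y, s (g y) = (starRingEnd ℂ) (s y)) → ψ g = 1

lemma odd_or_even (ψ : (E ≃ₐ[F] E) →* ℂ_[p]ˣ) (v : F →+* ℂ) : OddAt ψ v ∨ EvenAt ψ v := by
  have : FiniteDimensional F E := Module.Finite.of_restrictScalars_finite ℚ F E
  obtain ⟨s, hs⟩ := exists_extC (M := E) v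
  obtain ⟨g, hg⟩ := exists_conjF (F := F) s
  have hgg : g * g = 1 := by
    ext y
    apply s.injective
    change s (g (g y)) = s y
    rw [hg, hg, star_star]
  have hval : ψ g = -1 ∨ ψ g = 1 := by
    have h1 : ψ g * ψ g = 1 := by rw [← map_mul, hgg, map_one]
    have h2 : ((ψ g : ℂ_[p]ˣ) : ℂ_[p]) * ((ψ g : ℂ_[p]ˣ) : ℂ_[p]) = 1 := by
      rw [← Units.val_mul, h1, Units.val_one]
    rcases mul_self_eq_one_iff.1 h2 with h3 | h3
    · exact Or.inr (Units.ext (by rw [h3, Units.val_one]))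
    · exact Or.inl (Units.ext (by rw [h3, Units.val_neg, Units.val_one]))
  have hconj : ∀ (s' : E →+* ℂ) (g' : E ≃ₐ[F] E), s'.comp (algebraMap F E) = v →
      (∀ y, s' (g' y) = (starRingEnd ℂ) (s' y)) → ψ g' = ψ g := by
    intro s' g' hs' hg'
    obtain ⟨h, hh⟩ := exists_aut (K := F) s' s (by rw [hs', hs])
    have e1 : ∀ y, s' y = s (h y) := fun y => RingHom.congr_fun hh y
    have e2 : h * g' = g * h := by
      ext y
      apply s.injective
      change s (h (g' y)) = s (g (h y))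
      rw [← e1, hg', e1, hg]
      rfl
    have e3 := congrArg ψ e2
    rw [map_mul, map_mul, mul_comm] at e3
    exact mul_right_cancel e3
  rcases hval with h | h
  · left
    intro s' g' h1 h2
    rw [hconj s' g' h1 h2, h]
  · right
    intro s' g' h1 h2
    rw [hconj s' g' h1 h2, h]

variable {M : Type} [Field M] [NumberField M] [Algebra F M] [Algebra E M] [IsScalarTower F E M]
  [FiniteDimensional F M] [IsGalois F M]

lemma psiM_sign (ψ : (E ≃ₐ[F] E) →* ℂ_[p]ˣ) (t : M →+* ℂ) (g : M ≃ₐ[F] M)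
    (hg : ∀ y, t (g y) = star (t y)) :
    (OddAt ψ (t.comp (algebraMap F M)) → psiM M ψ g = -1) ∧
      (EvenAt ψ (t.comp (algebraMap F M)) → psiM M ψ g = 1) := by
  have h1 : (t.comp (algebraMap E M)).comp (algebraMap F E) = t.comp (algebraMap F M) := by
    rw [RingHom.comp_assoc, ← IsScalarTower.algebraMap_eq]
  have h2 : ∀ y, (t.comp (algebraMap E M)) (g.restrictNormal E y) =
      (starRingEnd ℂ) ((t.comp (algebraMap E M)) y) := by
    intro y
    change t (algebraMap E M (g.restrictNormal E y)) = _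
    rw [AlgEquiv.restrictNormal_commutes, hg]
    rfl
  exact ⟨fun h => h _ _ h1 h2, fun h => h _ _ h1 h2⟩

lemma sign_odd {ψ : (E ≃ₐ[F] E) →* ℂ_[p]ˣ} {v₀ : F →+* ℂ} (h₀ : OddAt ψ v₀)
    (h : ∀ v, v ≠ v₀ → EvenAt ψ v) : SignAt (psiM M ψ) (sgo p v₀) := by
  intro t g hg
  obtain ⟨h1, h2⟩ := psiM_sign ψ t g hg
  by_cases hv : t.comp (algebraMap F M) = v₀
  · rw [hv] at h1
    rw [hv, sgo_self, h1 h₀, Units.val_neg, Units.val_one]
  · rw [sgo_ne hv, h2 (h _ hv), Units.val_one]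

lemma sign_even {ψ : (E ≃ₐ[F] E) →* ℂ_[p]ˣ} {v₀ : F →+* ℂ} (h₀ : EvenAt ψ v₀)
    (h : ∀ v, v ≠ v₀ → OddAt ψ v) : SignAt (psiM M ψ) (sge p v₀) := by
  intro t g hg
  obtain ⟨h1, h2⟩ := psiM_sign ψ t g hg
  by_cases hv : t.comp (algebraMap F M) = v₀
  · rw [hv] at h2
    rw [hv, sge_self, h2 h₀, Units.val_one]
  · rw [sge_ne hv, h1 (h _ hv), Units.val_neg, Units.val_one]

/-- in degree at most three, a character of mixed signature is odd at exactly one place or even at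
exactly one place -/
lemma mixed_cases (hF : Module.finrank ℚ F ≤ 3) (ψ : (E ≃ₐ[F] E) →* ℂ_[p]ˣ) {v₁ v₂ : F →+* ℂ}
    (h₁ : OddAt ψ v₁) (h₂ : EvenAt ψ v₂) :
    (∃ v₀, OddAt ψ v₀ ∧ ∀ v, v ≠ v₀ → EvenAt ψ v) ∨
      ∃ v₀, EvenAt ψ v₀ ∧ ∀ v, v ≠ v₀ → OddAt ψ v := by
  classical
  by_contra hcon
  rw [not_or] at hcon
  obtain ⟨hc₁, hc₂⟩ := hcon
  push Not at hc₁ hc₂
  obtain ⟨v₃, hv₃, h₃⟩ := hc₁ v₁ h₁
  obtain ⟨v₄, hv₄, h₄⟩ := hc₂ v₂ h₂
  have h₃' := (odd_or_even ψ v₃).resolve_right h₃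
  have h₄' := (odd_or_even ψ v₄).resolve_left h₄
  have hne : ∀ v v', OddAt ψ v → EvenAt ψ v' → v ≠ v' := by
    rintro v _ hv hv' rfl
    have : FiniteDimensional F E := Module.Finite.of_restrictScalars_finite ℚ F E
    obtain ⟨s, hs⟩ := exists_extC (M := E) v
    obtain ⟨g, hg⟩ := exists_conjF (F := F) s
    have e1 := hv s g hs hg
    rw [hv' s g hs hg] at e1
    exact neg_one_ne e1.symm
  have h5 : ({v₁, v₃, v₂, v₄} : Finset (F →+* ℂ)).card = 4 := by
    rw [Finset.card_insert_of_notMem, Finset.card_insert_of_notMem, Finset.card_pair hv₄.symm]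
    · rw [Finset.mem_insert, Finset.mem_singleton, not_or]
      exact ⟨hne _ _ h₃' h₂, hne _ _ h₃' h₄'⟩
    · rw [Finset.mem_insert, Finset.mem_insert, Finset.mem_singleton, not_or, not_or]
      exact ⟨hv₃.symm, hne _ _ h₁ h₂, hne _ _ h₁ h₄'⟩
  have h6 := Finset.card_le_univ ({v₁, v₃, v₂, v₄} : Finset (F →+* ℂ))
  rw [h5, Embeddings.card F ℂ] at h6
  omega

end signs

section defs

/-- the statement for one CM type -/
def HoldsFor (p : ℕ) [Fact p.Prime] {F E : Type} [Field F] [Field E] [Algebra F E]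
    (ψ : (E ≃ₐ[F] E) →* ℂ_[p]ˣ) (K : Type) [Field K] [Algebra F K]
    (S : Set (K →+* ℂ_[p])) : Prop :=
  ∀ (H : Type) [Field H] [NumberField H] [Algebra K H] [Algebra E H] [Algebra F H]
    [IsScalarTower F K H] [IsScalarTower F E H] [IsGalois K H] (χ : (H ≃ₐ[K] H) →* ℂ_[p]ˣ),
    (∀ (τ : H ≃ₐ[K] H) (g : E ≃ₐ[F] E),
      (∀ e : E, τ (algebraMap E H e) = algebraMap E H (g e)) → χ τ = ψ g) →
    SigmaLeopoldt p K H S χ

end defs

/-- **At most one pair of CM types.** -/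
theorem pair_final (p : ℕ) [Fact p.Prime] (F E : Type) [Field F] [NumberField F]
    [IsTotallyReal F] (hF : Module.finrank ℚ F = 2 ∨ Module.finrank ℚ F = 3) [Field E]
    [NumberField E] [Algebra F E] [IsGalois F E] (ψ : (E ≃ₐ[F] E) →* ℂ_[p]ˣ)
    {v₁ v₂ : F →+* ℂ} (h₁ : OddAt ψ v₁) (h₂ : EvenAt ψ v₂)
    (K : Type) [Field K] [NumberField K] [IsTotallyComplex K] [Algebra F K]
    (hFK : Module.finrank F K = 2) (S S' : Set (K →+* ℂ_[p])) (hS : IsCMType p F K S)
    (hS' : IsCMType p F K S') (hne : S' ≠ S) (hne' : S' ≠ Sᶜ) :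
    HoldsFor p ψ K S ∨ HoldsFor p ψ K S' := by
  classical
  by_contra hcon
  rw [not_or] at hcon
  obtain ⟨hc₁, hc₂⟩ := hcon
  unfold HoldsFor at hc₁ hc₂
  push Not at hc₁ hc₂
  obtain ⟨H₁, i₁, i₂, i₃, i₄, i₅, i₆, i₇, i₈, χ₁, hχ₁, hf₁⟩ := hc₁
  obtain ⟨H₂, j₁, j₂, j₃, j₄, j₅, j₆, j₇, j₈, χ₂, hχ₂, hf₂⟩ := hc₂
  obtain ⟨θ⟩ := exists_theta p
  obtain ⟨L, hL⟩ := exists_iwasawaLog p
  obtain ⟨M, m₁, m₂, m₃, inc, hM₁, hM₂⟩ := exists_big2 p H₁ H₂
  -- compatible embeddings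
  obtain ⟨f₀⟩ : Nonempty (H₁ →+* ℂ_[p]) := by
    have : Algebra.IsAlgebraic ℚ H₁ := inferInstance
    exact ⟨(IsAlgClosed.lift : H₁ →ₐ[ℚ] ℂ_[p])⟩
  have : Algebra.IsAlgebraic E H₂ := Algebra.IsAlgebraic.tower_top (K := ℚ) E
  obtain ⟨f₂, hf⟩ := exists_ext (H := H₂) (f₀.comp (algebraMap E H₁))
  obtain ⟨τ₁, hτ₁⟩ := hM₁ f₀
  obtain ⟨τ₂, hτ₂⟩ := hM₂ f₂
  have hE12 : τ₂.comp (algebraMap E H₂) = τ₁.comp (algebraMap E H₁) := by
    ext e
    apply inc.injective
    have h3 := RingHom.congr_fun hf e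
    have h4 := RingHom.congr_fun hτ₁ (algebraMap E H₁ e)
    have h5 := RingHom.congr_fun hτ₂ (algebraMap E H₂ e)
    exact h5.trans (h3.trans h4.symm)
  letI aE : Algebra E M := (τ₁.comp (algebraMap E H₁)).toAlgebra
  letI aF : Algebra F M := ((τ₁.comp (algebraMap E H₁)).comp (algebraMap F E)).toAlgebra
  letI aK : Algebra K M := (τ₁.comp (algebraMap K H₁)).toAlgebra
  haveI t₁ : IsScalarTower F E M := IsScalarTower.of_algebraMap_eq fun x => rfl
  haveI t₂ : IsScalarTower F K M := IsScalarTower.of_algebraMap_eq fun x => by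
    change τ₁ (algebraMap E H₁ (algebraMap F E x)) = τ₁ (algebraMap K H₁ (algebraMap F K x))
    rw [← IsScalarTower.algebraMap_apply, ← IsScalarTower.algebraMap_apply]
  haveI : IsGalois F M := IsGalois.tower_top_of_isGalois ℚ F M
  haveI : FiniteDimensional F M := Module.Finite.of_restrictScalars_finite ℚ F M
  haveI : IsTotallyComplex M := isTotallyComplex_of_algebra K M
  have : Algebra.IsQuadraticExtension F K := ⟨hFK⟩
  haveI : FiniteDimensional F K := Module.finite_of_finrank_pos (by omega)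
  haveI : IsGalois F K := inferInstance
  have hK : Nat.card (K ≃ₐ[F] K) = 2 := by rw [IsGalois.card_aut_eq_finrank, hFK]
  obtain ⟨γ, hγ⟩ := exists_gamma (F := F) inc
  obtain ⟨X₁, hX0₁, hX₁, hX1₁⟩ := to_MF (M := M) θ ψ hL τ₁ rfl χ₁ hχ₁ S hf₁
  obtain ⟨X₂, hX0₂, hX₂, hX1₂⟩ := to_MF (M := M) θ ψ hL τ₂ hE12 χ₂ hχ₂ S' hf₂
  -- the two embeddings of `K` differ by an automorphism
  obtain ⟨c, hc⟩ := exists_aut (K := F) (τ₂.comp (algebraMap K H₂)) (τ₁.comp (algebraMap K H₁))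
    (by
      ext x
      change τ₂ (algebraMap K H₂ (algebraMap F K x)) = τ₁ (algebraMap K H₁ (algebraMap F K x))
      rw [← IsScalarTower.algebraMap_apply, ← IsScalarTower.algebraMap_apply,
        IsScalarTower.algebraMap_apply F E H₂, IsScalarTower.algebraMap_apply F E H₁]
      exact RingHom.congr_fun hE12 (algebraMap F E x))
  have hres : ∀ g : M ≃ₐ[F] M, g.restrictNormal K = 1 →
      ∀ y : K, g (algebraMap K M y) = algebraMap K M y := by
    intro g hg y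
    rw [← AlgEquiv.restrictNormal_commutes, hg]
    rfl
  have hX₁' : ∀ g : M ≃ₐ[F] M, g.restrictNormal K = 1 →
      push (g : M →+* M) X₁ = ((psiM M ψ g : ℂ_[p]ˣ) : ℂ_[p]) • X₁ :=
    fun g hg => hX₁ g (hres g hg)
  have hX₂' : ∀ g : M ≃ₐ[F] M, g.restrictNormal K = 1 →
      push (g : M →+* M) X₂ = ((psiM M ψ g : ℂ_[p]ˣ) : ℂ_[p]) • X₂ := by
    intro g hg
    refine hX₂ g fun y => ?_
    have h3 := RingHom.congr_fun hc y
    change τ₂ (algebraMap K H₂ y) = algebraMap K M (c y) at h3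
    rw [h3, hres g hg]
  -- the type of the second failure, read in the first embedding
  obtain ⟨T, hT, hTl, hTne, hTne'⟩ : ∃ T : Set (K →+* ℂ_[p]), IsCMType p F K T ∧
      (∀ σ : M →+* ℂ_[p], σ.comp (algebraMap K M) ∈ T → logLin hL σ X₂ = 0) ∧ T ≠ S ∧
      T ≠ Sᶜ := by
    by_cases hc1 : c = 1
    · refine ⟨S', hS', fun σ hσ => hX1₂ σ ?_, hne, hne'⟩
      rw [hc, hc1]
      exact hσ
    · refine ⟨S'ᶜ, ?_, fun σ hσ => hX1₂ σ ?_, fun h => ?_, fun h => hne (compl_injective h)⟩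
      · intro c' hc' σ
        rw [Set.mem_compl_iff, Set.mem_compl_iff, hS' c' hc' σ]
      · rw [hc]
        by_contra h3
        exact hσ ((hS' c hc1 _).2 h3)
      · apply hne'
        rw [← h, compl_compl]
  rcases mixed_cases (by omega) ψ h₁ h₂ with ⟨v₀, hv₀, hv⟩ | ⟨v₀, hv₀, hv⟩
  · rcases pair_M θ hL hF hγ (sign_odd (M := M) hv₀ hv) hK S T hS hT X₁ X₂ hX0₁ hX0₂ hX₁' hX₂'
      hX1₁ hTl with h | h
    · exact hTne h
    · exact hTne' h
  · have hs := sign_mul_even (K := K) hK (sign_even (M := M) hv₀ hv)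
    have hmul : ∀ g : M ≃ₐ[F] M, g.restrictNormal K = 1 →
        (psiM M ψ * sgnM p F K M hK) g = psiM M ψ g := by
      intro g hg
      rw [MonoidHom.mul_apply, (sgnM_eq_one hK g).2 hg, mul_one]
    rcases pair_M θ hL hF hγ hs hK S T hS hT X₁ X₂ hX0₁ hX0₂
      (fun g hg => by rw [hmul g hg]; exact hX₁' g hg)
      (fun g hg => by rw [hmul g hg]; exact hX₂' g hg)
      hX1₁ hTl with h | h
    · exact hTne h
    · exact hTne' h

section data

variable {F E K H M : Type} [Field F] [NumberField F] [IsTotallyReal F] [Field E]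
  [NumberField E] [Algebra F E] [IsGalois F E] [Field K] [NumberField K] [IsTotallyComplex K]
  [Algebra F K]
  [Field H] [NumberField H] [Algebra K H] [Algebra E H] [Algebra F H] [IsScalarTower F K H]
  [IsScalarTower F E H] [IsGalois K H]
  [Field M] [NumberField M] [Algebra F M] [Algebra E M] [IsScalarTower F E M] [IsGalois F M]
  [FiniteDimensional F M] [IsTotallyComplex M]
  {inc : M →+* ℂ_[p]} {γ : (F →+* ℂ_[p]) → (M ≃ₐ[ℚ] M)}

/-- the data of one failure -/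
theorem data_final (θ : ℂ_[p] ≃+* ℂ) {L : ℂ_[p] → ℂ_[p]} (hL : IsIwasawaLog p L)
    (hF : Module.finrank ℚ F = 2 ∨ Module.finrank ℚ F = 3)
    (hγ : ∀ j, (inc.comp (γ j : M →+* M)).comp (algebraMap F M) = j) {v₀ : F →+* ℂ}
    (ψ : (E ≃ₐ[F] E) →* ℂ_[p]ˣ) (hs : SignAt (psiM M ψ) (sgo p v₀))
    (m : (F →+* ℂ_[p]) → ℂ_[p])
    (hm : ∀ x : UM p M, InChi (psiM M ψ) x →
      ∑ j, m j * logLin hL (inc.comp (γ j : M →+* M)) x = 0)
    (τ : H →+* M) (hτ : τ.comp (algebraMap E H) = algebraMap E M) (hFK : Module.finrank F K = 2)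
    (χ : (H ≃ₐ[K] H) →* ℂ_[p]ˣ)
    (hχ : ∀ (τ : H ≃ₐ[K] H) (g : E ≃ₐ[F] E),
      (∀ e : E, τ (algebraMap E H e) = algebraMap E H (g e)) → χ τ = ψ g)
    (S : Set (K →+* ℂ_[p])) (hS : IsCMType p F K S) (h : ¬ SigmaLeopoldt p K H S χ) :
    ∃ (η : (M ≃ₐ[F] M) →* ℂ_[p]ˣ) (w : UM p M) (ε : (F →+* ℂ_[p]) → ℂ_[p]),
      SignAt (psiM M ψ * η) (sge p v₀) ∧ w ∈ AU p M ∧ InChi (psiM M ψ * η) w ∧ w ≠ 0 ∧
      (∀ j, ε j = 1 ∨ ε j = -1) ∧
      ∑ j, m j * (ε j * logLin hL (inc.comp (γ j : M →+* M)) w) = 0 ∧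
      ∀ z : M, (∃ y : K, τ (algebraMap K H y) = z) ↔ ∀ g : M ≃ₐ[F] M, η g = 1 → g z = z := by
  classical
  letI aK : Algebra K M := (τ.comp (algebraMap K H)).toAlgebra
  haveI t₂ : IsScalarTower F K M := IsScalarTower.of_algebraMap_eq fun x => by
    change _ = τ (algebraMap K H (algebraMap F K x))
    rw [← IsScalarTower.algebraMap_apply, IsScalarTower.algebraMap_apply F E H,
      IsScalarTower.algebraMap_apply F E M, ← hτ]
    rfl
  have : Algebra.IsQuadraticExtension F K := ⟨hFK⟩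
  haveI : FiniteDimensional F K := Module.finite_of_finrank_pos (by omega)
  haveI : IsGalois F K := inferInstance
  have hK : Nat.card (K ≃ₐ[F] K) = 2 := by rw [IsGalois.card_aut_eq_finrank, hFK]
  obtain ⟨X, hX0, hX, hX1⟩ := to_MF (M := M) θ ψ hL τ hτ χ hχ S h
  have hs' := sign_mul_odd (K := K) hK hs
  obtain ⟨w, hwA, hwχ, hw0, hw⟩ := gen_even (M := M) θ (by omega) hs'
  have hres : ∀ g : M ≃ₐ[F] M, g.restrictNormal K = 1 →
      ∀ y : K, g (algebraMap K M y) = algebraMap K M y := by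
    intro g hg y
    rw [← AlgEquiv.restrictNormal_commutes, hg]
    rfl
  obtain ⟨ε, hε, -, hrel⟩ := fail_eps θ hL hF hγ hs m hm hK S hS X hX0
    (fun g hg => hX g (hres g hg)) hX1 w hw
  refine ⟨sgnM p F K M hK, w, ε, hs', hwA, hwχ, hw0, hε, hrel, fun z => ?_⟩
  constructor
  · rintro ⟨y, rfl⟩ g hg
    rw [sgnM_eq_one] at hg
    exact hres g hg y
  · intro hz
    let E' : IntermediateField F M := (IsScalarTower.toAlgHom F K M).fieldRange
    have hE' : ∀ y : K, algebraMap K M y ∈ E' := fun y => ⟨y, rfl⟩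
    have h1 : z ∈ E' := by
      rw [← IsGalois.fixedField_fixingSubgroup E', IntermediateField.mem_fixedField_iff]
      intro γ hγ
      rw [IntermediateField.mem_fixingSubgroup_iff] at hγ
      apply hz
      rw [sgnM_eq_one]
      ext y
      apply (algebraMap K M).injective
      rw [AlgEquiv.restrictNormal_commutes]
      exact hγ _ (hE' y)
    obtain ⟨y, hy⟩ := h1
    exact ⟨y, hy⟩

end data

/-- **All CM extensions but `(d - 1) ^ 2`.** -/
theorem count_final (p : ℕ) [Fact p.Prime] (F E : Type) [Field F] [NumberField F]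
    [IsTotallyReal F] (hF : Module.finrank ℚ F = 2 ∨ Module.finrank ℚ F = 3) [Field E]
    [NumberField E] [Algebra F E] [IsGalois F E] (ψ : (E ≃ₐ[F] E) →* ℂ_[p]ˣ)
    {v₀ : F →+* ℂ} (hv₀ : OddAt ψ v₀) (hv : ∀ v, v ≠ v₀ → EvenAt ψ v)
    {n : ℕ} (hn : n = (Module.finrank ℚ F - 1) ^ 2 + 1) (K : Fin n → Type) [∀ i, Field (K i)]
    [∀ i, NumberField (K i)] [∀ i, IsTotallyComplex (K i)] [∀ i, Algebra F (K i)]
    (hFK : ∀ i, Module.finrank F (K i) = 2) (hiso : ∀ i j, i ≠ j → IsEmpty (K i ≃ₐ[F] K j)) :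
    ∃ i, ∀ S : Set (K i →+* ℂ_[p]), IsCMType p F (K i) S → HoldsFor p ψ (K i) S := by
  classical
  by_contra hcon
  unfold HoldsFor at hcon
  push Not at hcon
  choose S hS H i₁ i₂ i₃ i₄ i₅ i₆ i₇ i₈ χ hχ hf using hcon
  obtain ⟨θ⟩ := exists_theta p
  obtain ⟨L, hL⟩ := exists_iwasawaLog p
  obtain ⟨M, m₁, m₂, m₃, inc, hM⟩ := exists_bigN p H
  have hn0 : 0 < n := by omega
  obtain ⟨f₀⟩ : Nonempty (E →+* ℂ_[p]) := by
    have : Algebra.IsAlgebraic ℚ E := inferInstance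
    exact ⟨(IsAlgClosed.lift : E →ₐ[ℚ] ℂ_[p])⟩
  have hτ : ∀ i, ∃ τ : H i →+* M, (inc.comp τ).comp (algebraMap E (H i)) = f₀ := by
    intro i
    have : Algebra.IsAlgebraic E (H i) := Algebra.IsAlgebraic.tower_top (K := ℚ) E
    obtain ⟨f, hf⟩ := exists_ext (H := H i) f₀
    obtain ⟨τ, hτ⟩ := hM i f
    exact ⟨τ, by rw [hτ, hf]⟩
  choose τ hτ using hτ
  have hcomp : ∀ i j, (τ i).comp (algebraMap E (H i)) = (τ j).comp (algebraMap E (H j)) := by
    intro i j
    ext e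
    apply inc.injective
    have h1 := RingHom.congr_fun (hτ i) e
    have h2 := RingHom.congr_fun (hτ j) e
    exact h1.trans h2.symm
  letI aE : Algebra E M := ((τ ⟨0, hn0⟩).comp (algebraMap E (H ⟨0, hn0⟩))).toAlgebra
  letI aF : Algebra F M :=
    (((τ ⟨0, hn0⟩).comp (algebraMap E (H ⟨0, hn0⟩))).comp (algebraMap F E)).toAlgebra
  haveI t₁ : IsScalarTower F E M := IsScalarTower.of_algebraMap_eq fun x => rfl
  haveI : IsGalois F M := IsGalois.tower_top_of_isGalois ℚ F M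
  haveI : FiniteDimensional F M := Module.Finite.of_restrictScalars_finite ℚ F M
  haveI : IsTotallyComplex M := by
    letI : Algebra (K ⟨0, hn0⟩) M :=
      ((τ ⟨0, hn0⟩).comp (algebraMap (K ⟨0, hn0⟩) (H ⟨0, hn0⟩))).toAlgebra
    exact isTotallyComplex_of_algebra (K ⟨0, hn0⟩) M
  have hE : ∀ i, (τ i).comp (algebraMap E (H i)) = algebraMap E M := fun i => hcomp i _
  obtain ⟨γ, hγ⟩ := exists_gamma (F := F) inc
  have hs := sign_odd (M := M) hv₀ hv
  obtain ⟨m, hm0, hm⟩ := exists_rel_vec (M := M) θ hL hs (fun j => inc.comp (γ j : M →+* M))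
  choose η w ε hsη hwA hwχ hw0 hε hrel hfix using fun i =>
    data_final (M := M) θ hL hF hγ ψ hs m hm (τ i) (hE i) (hFK i) (χ i) (hχ i) (S i) (hS i) (hf i)
  have hinj : Function.Injective fun i => psiM M ψ * η i := by
    intro i j hij
    by_contra hne
    have h1 : η i = η j := mul_left_cancel hij
    have hcomm : ∀ i (x : F), (τ i).comp (algebraMap (K i) (H i)) (algebraMap F (K i) x) =
        algebraMap F M x := by
      intro i x
      change τ i (algebraMap (K i) (H i) (algebraMap F (K i) x)) = _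
      rw [← IsScalarTower.algebraMap_apply, IsScalarTower.algebraMap_apply F E (H i),
        IsScalarTower.algebraMap_apply F E M, ← hE i]
      rfl
    let fi : K i →ₐ[F] M := { (τ i).comp (algebraMap (K i) (H i)) with commutes' := hcomm i }
    let fj : K j →ₐ[F] M := { (τ j).comp (algebraMap (K j) (H j)) with commutes' := hcomm j }
    obtain ⟨e⟩ := iso_of_range_alg fi fj (fun z => by
      change (∃ y, τ i (algebraMap (K i) (H i) y) = z) ↔
        ∃ y, τ j (algebraMap (K j) (H j) y) = z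
      rw [hfix i z, hfix j z, h1])
    exact (hiso i j hne).elim e
  have h1 := count_M θ hL hF hγ hs m hm0 hm (fun i => psiM M ψ * η i) hinj hsη w hwA hwχ hw0 ε
    (fun i j => by
      rcases hε i j with h | h <;> rw [h]
      · exact isAlgebraic_one
      · exact isAlgebraic_one.neg)
    (fun i j => by
      rcases hε i j with h | h <;> rw [h]
      · exact one_ne_zero
      · exact neg_ne_zero.2 one_ne_zero) hrel
  rw [Fintype.card_fin] at h1
  omega

end Pool.Agent.V7H53.SY
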