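import Pool.Agent.V7H53.SY.Inj

set_option autoImplicit false
set_option linter.unusedSectionVars false

/-!
# The relation vector and the count of the exceptional extensions
-/

namespace Pool.Agent.V7H53.SY

open NumberField TensorProduct Pool.Agent.W289.SL Pool.Agent.W332.SL6 Pool.Agent.V7H53.SX
open Pool.Agent.W254.PA (exists_theta LgP Hyp LtE)

variable {p : ℕ} [Fact p.Prime]

section rel

variable {F M : Type} [Field F] [NumberField F] [IsTotallyReal F] [Field M] [NumberField M]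
  [Algebra F M] [FiniteDimensional F M] [IsGalois F M]

/-- the eigenspace as a subspace -/
def eigSub (ψ : (M ≃ₐ[F] M) →* ℂ_[p]ˣ) : Submodule ℂ_[p] (UM p M) where
  carrier := {x | InChi ψ x}
  zero_mem' := zero_inChi ψ
  add_mem' hx hy := hx.add hy
  smul_mem' c _ hx := hx.smul c

/-- there is a linear relation between the conjugate logarithms on the eigenspace -/
theorem exists_rel_vec (θ : ℂ_[p] ≃+* ℂ) {L : ℂ_[p] → ℂ_[p]} (hL : IsIwasawaLog p L)
    {v₀ : F →+* ℂ} {ψ : (M ≃ₐ[F] M) →* ℂ_[p]ˣ} (hs : SignAt ψ (sgo p v₀))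
    (σ : (F →+* ℂ_[p]) → (M →+* ℂ_[p])) :
    ∃ m : (F →+* ℂ_[p]) → ℂ_[p], (∃ j, m j ≠ 0) ∧
      ∀ x : UM p M, InChi ψ x → ∑ j, m j * logLin hL (σ j) x = 0 := by
  classical
  choose t ht using fun v : {v : F →+* ℂ // v ≠ v₀} => exists_extC (M := M) v.1
  let Φ : UM p M →ₗ[ℂ_[p]] ({v : F →+* ℂ // v ≠ v₀} → ℂ_[p]) :=
    LinearMap.pi fun v => lam θ (t v)
  have hinj : Function.Injective (Φ.domRestrict (eigSub ψ)) := by
    rw [← LinearMap.ker_eq_bot, LinearMap.ker_eq_bot']
    rintro ⟨x, hx⟩ h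
    have h1 : ∀ v, lam θ (t v) x = 0 := fun v => congrFun h v
    apply Subtype.ext
    refine eq_zero_of_even θ hs hx fun v hv => ?_
    have hv' : v ≠ v₀ := by
      rintro rfl
      exact hv (sgo_self _)
    exact ⟨t ⟨v, hv'⟩, ht ⟨v, hv'⟩, h1 _⟩
  have hfin : Module.Finite ℂ_[p] (eigSub (p := p) ψ) := Module.Finite.of_injective _ hinj
  have hcard : Fintype.card {v : F →+* ℂ // v ≠ v₀} = Module.finrank ℚ F - 1 := by
    rw [Fintype.card_subtype_compl, Embeddings.card F ℂ]
    simp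
  have hle : Module.finrank ℂ_[p] (eigSub (p := p) ψ) ≤ Module.finrank ℚ F - 1 := by
    have h1 := LinearMap.finrank_le_finrank_of_injective hinj
    rwa [Module.finrank_fintype_fun_eq_card, hcard] at h1
  let Ψ : UM p M →ₗ[ℂ_[p]] ((F →+* ℂ_[p]) → ℂ_[p]) :=
    LinearMap.pi fun j => logLin hL (σ j)
  have hpos : 0 < Module.finrank ℚ F := Module.finrank_pos
  have hne : LinearMap.range (Ψ.domRestrict (eigSub ψ)) ≠ ⊤ := by
    intro htop
    have h1 := LinearMap.finrank_range_le (Ψ.domRestrict (eigSub ψ))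
    rw [htop, finrank_top, Module.finrank_fintype_fun_eq_card, card_J] at h1
    omega
  obtain ⟨f, hf0, hf⟩ := Submodule.exists_le_ker_of_lt_top _ (lt_top_iff_ne_top.2 hne)
  have hfs := LinearMap.pi_apply_eq_sum_univ f
  refine ⟨fun j => f fun i => if j = i then 1 else 0, ?_, fun x hx => ?_⟩
  · by_contra hcon
    push Not at hcon
    apply hf0
    refine LinearMap.ext fun y => ?_
    rw [hfs, LinearMap.zero_apply]
    refine Finset.sum_eq_zero fun j _ => ?_
    rw [hcon j, smul_zero]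
  · have h1 : f (Ψ x) = 0 := hf ⟨⟨x, hx⟩, rfl⟩
    rw [hfs] at h1
    refine Eq.trans (Finset.sum_congr rfl fun j _ => ?_) h1
    rw [smul_eq_mul, mul_comm]
    rfl

end rel

section cnt

variable {F M : Type} [Field F] [NumberField F] [IsTotallyReal F] [Field M] [NumberField M]
  [Algebra F M] [FiniteDimensional F M] [IsGalois F M] [IsTotallyComplex M]
  {inc : M →+* ℂ_[p]} {γ : (F →+* ℂ_[p]) → (M ≃ₐ[ℚ] M)}

/-- at least two coefficients of the relation do not vanish -/
theorem two_coeff (θ : ℂ_[p] ≃+* ℂ) {L : ℂ_[p] → ℂ_[p]} (hL : IsIwasawaLog p L)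
    (hF : 2 ≤ Module.finrank ℚ F) {v₀ : F →+* ℂ}
    {ψ : (M ≃ₐ[F] M) →* ℂ_[p]ˣ} (hs : SignAt ψ (sgo p v₀))
    (m : (F →+* ℂ_[p]) → ℂ_[p])
    (hm : ∀ x : UM p M, InChi ψ x → ∑ j, m j * logLin hL (inc.comp (γ j : M →+* M)) x = 0)
    (j : F →+* ℂ_[p]) (hj : m j ≠ 0) : ∃ j', j' ≠ j ∧ m j' ≠ 0 := by
  classical
  by_contra hcon
  push Not at hcon
  obtain ⟨u, hu1, hu2, hu3, -⟩ := basis_odd (M := M) θ hs
  have hpos : 0 < Module.finrank ℚ F - 1 := by omega
  have h1 := hm _ (hu2 ⟨0, hpos⟩)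
  rw [Finset.sum_eq_single j (fun j' _ hj' => by rw [hcon j' hj', zero_mul])
    (fun h => absurd (Finset.mem_univ _) h)] at h1
  have h2 := (mul_eq_zero.1 h1).resolve_left hj
  exact hu3.ne_zero _ (eq_zero_of_log hL _ (hu1 _) h2)

variable {ι : Type} [Fintype ι]

lemma count_core (θ : ℂ_[p] ≃+* ℂ) {L : ℂ_[p] → ℂ_[p]} (hL : IsIwasawaLog p L) {v₀ : F →+* ℂ}
    {ψ : (M ≃ₐ[F] M) →* ℂ_[p]ˣ} (hs : SignAt ψ (sgo p v₀))
    (m : (F →+* ℂ_[p]) → ℂ_[p])
    (hm : ∀ x : UM p M, InChi ψ x → ∑ j, m j * logLin hL (inc.comp (γ j : M →+* M)) x = 0)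
    (ψ' : ι → ((M ≃ₐ[F] M) →* ℂ_[p]ˣ)) (hψ' : Function.Injective ψ')
    (hs' : ∀ i, SignAt (ψ' i) (sge p v₀)) (w : ι → UM p M) (hwA : ∀ i, w i ∈ AU p M)
    (hwχ : ∀ i, InChi (ψ' i) (w i)) (hw0 : ∀ i, w i ≠ 0) (ε : ι → (F →+* ℂ_[p]) → ℂ_[p])
    (hεA : ∀ i j, IsAlgebraic ℚ (ε i j)) (hε0 : ∀ i j, ε i j ≠ 0)
    (hrel : ∀ i, ∑ j, m j * (ε i j * logLin hL (inc.comp (γ j : M →+* M)) (w i)) = 0)
    {r : ℕ} (A : (F →+* ℂ_[p]) → Fin r → ℂ_[p]) (μ : Fin r → ℂ_[p])
    (hA : ∀ j l, IsAlgebraic ℚ (A j l)) (hμ : LinearIndependent (algebraicClosure ℚ ℂ_[p]) μ)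
    (hmA : ∀ j, m j = ∑ l, A j l * μ l)
    (Hsep : ∀ (U : UM p M) (b : ι → ℂ_[p]), InChi ψ U →
      (∀ l, ∑ j, A j l • push (γ j : M →+* M) (U + ∑ i, (b i * ε i j) • w i) = 0) →
      ∃ j, U + ∑ i, (b i * ε i j) • w i = 0) :
    (Module.finrank ℚ F - 1) + Fintype.card ι ≤ r * (r - 1) := by
  classical
  obtain ⟨u, hu1, hu2, hu3, -⟩ := basis_odd (M := M) θ hs
  let a : (Fin (Module.finrank ℚ F - 1) ⊕ ι) → Fin r → ℂ_[p] := fun q l =>
    Sum.elim (fun k => ∑ j, A j l * logLin hL (inc.comp (γ j : M →+* M)) (u k))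
      (fun i => ∑ j, A j l * (ε i j * logLin hL (inc.comp (γ j : M →+* M)) (w i))) q
  have ha1 : ∀ k l, a (Sum.inl k) l =
      ∑ j, A j l * logLin hL (inc.comp (γ j : M →+* M)) (u k) := fun k l => rfl
  have ha2 : ∀ i l, a (Sum.inr i) l =
      ∑ j, A j l * (ε i j * logLin hL (inc.comp (γ j : M →+* M)) (w i)) := fun i l => rfl
  have hswap : ∀ z : (F →+* ℂ_[p]) → ℂ_[p],
      ∑ l, μ l * ∑ j, A j l * z j = ∑ j, m j * z j := by
    intro z
    simp only [Finset.mul_sum]
    rw [Finset.sum_comm]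
    refine Finset.sum_congr rfl fun j _ => ?_
    rw [hmA, Finset.sum_mul]
    refine Finset.sum_congr rfl fun l _ => ?_
    ring
  have h0 : ∀ q, ∑ l, μ l * a q l = 0 := by
    rintro (k | i)
    · simp only [ha1]
      rw [hswap]
      exact hm _ (hu2 k)
    · simp only [ha2]
      rw [hswap]
      exact hrel i
  have hmem : ∀ q l, a q l ∈ LtE ((LgP p (𝕂 := ℂ_[p])) : Set ℂ_[p]) := by
    rintro (k | i) l
    · rw [ha1]
      exact Submodule.sum_mem _ fun j _ => LtE_smul (hA j l) (logLin_mem hL _ (hu1 k))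
    · rw [ha2]
      exact Submodule.sum_mem _ fun j _ => LtE_smul (hA j l)
        (LtE_smul (hεA i j) (logLin_mem hL _ (hwA i)))
  have hli : LinearIndependent (algebraicClosure ℚ ℂ_[p]) a := by
    rw [Fintype.linearIndependent_iff]
    intro g hg
    set b : ι → ℂ_[p] := fun i => (g (Sum.inr i) : ℂ_[p]) with hb
    set U : UM p M := ∑ k, (g (Sum.inl k) : ℂ_[p]) • u k with hU
    have hUA : U ∈ AU p M := Submodule.sum_mem _ fun k _ =>
      smul_mem_AU (hu1 k) (mem_algebraicClosure_iff.1 (g _).2)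
    have hUχ : InChi ψ U := sum_inChi _ _ _ fun k _ => hu2 k
    have hWA : ∀ j, U + ∑ i, (b i * ε i j) • w i ∈ AU p M := fun j =>
      add_mem hUA (Submodule.sum_mem _ fun i _ =>
        smul_mem_AU (hwA i) ((mem_algebraicClosure_iff.1 (g _).2).mul (hεA i j)))
    obtain ⟨j, hj⟩ := Hsep U b hUχ (by
      intro l
      apply eq_zero_of_log hL inc (Submodule.sum_mem _ fun j _ =>
        smul_mem_AU (push_mem_AU _ (hWA j)) (hA j l))
      have h3 := congrFun hg l
      rw [Finset.sum_apply, Fintype.sum_sum_type] at h3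
      have h4 : (∑ k, (g (Sum.inl k) : ℂ_[p]) * a (Sum.inl k) l) +
          ∑ i, (g (Sum.inr i) : ℂ_[p]) * a (Sum.inr i) l = 0 := h3
      rw [map_sum, ← h4]
      have e1 : ∀ j, logLin hL inc (A j l • push (γ j : M →+* M)
          (U + ∑ i, (b i * ε i j) • w i)) =
          (∑ k, (g (Sum.inl k) : ℂ_[p]) *
            (A j l * logLin hL (inc.comp (γ j : M →+* M)) (u k))) +
          ∑ i, (g (Sum.inr i) : ℂ_[p]) *
            (A j l * (ε i j * logLin hL (inc.comp (γ j : M →+* M)) (w i))) := by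
        intro j
        rw [map_smul, smul_eq_mul, logLin_push, map_add, hU, map_sum, map_sum, mul_add,
          Finset.mul_sum, Finset.mul_sum]
        congr 1
        · refine Finset.sum_congr rfl fun k _ => ?_
          rw [map_smul, smul_eq_mul]
          ring
        · refine Finset.sum_congr rfl fun i _ => ?_
          rw [map_smul, smul_eq_mul, hb]
          ring
      rw [Finset.sum_congr rfl (fun j _ => e1 j), Finset.sum_add_distrib]
      congr 1
      · rw [Finset.sum_comm]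
        refine Finset.sum_congr rfl fun k _ => ?_
        rw [ha1, Finset.mul_sum]
      · rw [Finset.sum_comm]
        refine Finset.sum_congr rfl fun i _ => ?_
        rw [ha2, Finset.mul_sum])
    have h5 := indep_eig (k := F) (M := M) (Finset.univ : Finset (Option ι))
      (fun o => Option.elim o ψ ψ') (by
        have hne : ∀ i, ψ ≠ ψ' i := by
          intro i h
          obtain ⟨t, ht⟩ := exists_extC (M := M) v₀
          obtain ⟨g, hg⟩ := exists_conjF (F := F) t
          have e1 := hs t g hg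
          have e2 := hs' i t g hg
          rw [ht] at e1 e2
          rw [h, e2, sgo_self, sge_self] at e1
          exact one_ne_neg_one e1
        rintro (_ | i) _ (_ | i') _ h
        · rfl
        · exact absurd h (hne i')
        · exact absurd h.symm (hne i)
        · exact congrArg some (hψ' h))
      (fun o => Option.elim o U fun i => (b i * ε i j) • w i)
      (by
        rintro (_ | i) _
        · exact hUχ
        · exact (hwχ i).smul _)
      (by
        rw [Fintype.sum_option]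
        exact hj)
    have hU0 : U = 0 := h5 none (Finset.mem_univ _)
    have hb0 : ∀ i, (b i * ε i j) • w i = 0 := fun i => h5 (some i) (Finset.mem_univ _)
    rintro (k | i)
    · rw [Fintype.linearIndependent_iff] at hu3
      exact Subtype.ext (hu3 (fun k => (g (Sum.inl k) : ℂ_[p])) hU0 k)
    · have h6 := (smul_eq_zero.1 (hb0 i)).resolve_right (hw0 i)
      exact Subtype.ext ((mul_eq_zero.1 h6).resolve_right (hε0 i j))
  have h7 := hyp_pts μ hμ a hmem h0 hli
  rwa [Fintype.card_sum, Fintype.card_fin] at h7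

/-- **The count.** -/
theorem count_M (θ : ℂ_[p] ≃+* ℂ) {L : ℂ_[p] → ℂ_[p]} (hL : IsIwasawaLog p L)
    (hF : Module.finrank ℚ F = 2 ∨ Module.finrank ℚ F = 3)
    (hγ : ∀ j, (inc.comp (γ j : M →+* M)).comp (algebraMap F M) = j) {v₀ : F →+* ℂ}
    {ψ : (M ≃ₐ[F] M) →* ℂ_[p]ˣ} (hs : SignAt ψ (sgo p v₀))
    (m : (F →+* ℂ_[p]) → ℂ_[p]) (hm0 : ∃ j, m j ≠ 0)
    (hm : ∀ x : UM p M, InChi ψ x → ∑ j, m j * logLin hL (inc.comp (γ j : M →+* M)) x = 0)
    (ψ' : ι → ((M ≃ₐ[F] M) →* ℂ_[p]ˣ)) (hψ' : Function.Injective ψ')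
    (hs' : ∀ i, SignAt (ψ' i) (sge p v₀)) (w : ι → UM p M) (hwA : ∀ i, w i ∈ AU p M)
    (hwχ : ∀ i, InChi (ψ' i) (w i)) (hw0 : ∀ i, w i ≠ 0) (ε : ι → (F →+* ℂ_[p]) → ℂ_[p])
    (hεA : ∀ i j, IsAlgebraic ℚ (ε i j)) (hε0 : ∀ i j, ε i j ≠ 0)
    (hrel : ∀ i, ∑ j, m j * (ε i j * logLin hL (inc.comp (γ j : M →+* M)) (w i)) = 0) :
    Fintype.card ι ≤ (Module.finrank ℚ F - 1) ^ 2 := by
  classical
  obtain ⟨t₀, ht₀⟩ := exists_extC (M := M) v₀
  obtain ⟨c, hc⟩ := exists_conjF (F := F) t₀
  by_cases hind : LinearIndependent (algebraicClosure ℚ ℂ_[p]) m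
  · -- independent coefficients
    obtain ⟨r, hr⟩ : ∃ r, r = Fintype.card (F →+* ℂ_[p]) := ⟨_, rfl⟩
    have e : (F →+* ℂ_[p]) ≃ Fin r := Fintype.equivFinOfCardEq hr.symm
    obtain ⟨j₀, -⟩ := hm0
    have h1 := count_core θ hL hs m hm ψ' hψ' hs' w hwA hwχ hw0 ε hεA hε0 hrel
      (fun j l => if e j = l then 1 else 0) (fun l => m (e.symm l)) (fun j l => by
        change IsAlgebraic ℚ (if e j = l then (1 : ℂ_[p]) else 0)
        split_ifs
        · exact isAlgebraic_one
        · exact isAlgebraic_zero)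
      (hind.comp e.symm e.symm.injective)
      (fun j => by
        rw [Finset.sum_eq_single (e j)]
        · rw [if_pos rfl, one_mul, Equiv.symm_apply_apply]
        · intro l _ hl
          rw [if_neg (Ne.symm hl), zero_mul]
        · intro h
          exact absurd (Finset.mem_univ _) h)
      (fun U b hU h => by
        refine ⟨j₀, ?_⟩
        have h2 := h (e j₀)
        rw [Finset.sum_eq_single j₀] at h2
        · rw [if_pos rfl, one_smul] at h2
          by_contra h3
          exact push_ne_zero θ _ h3 h2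
        · intro j _ hj
          rw [if_neg (fun h3 => hj (e.injective h3)), zero_smul]
        · intro h
          exact absurd (Finset.mem_univ _) h)
    rw [card_J] at hr
    rcases hF with hF | hF <;> rw [hF] at h1 hr ⊢ <;> subst hr <;> omega
  · obtain ⟨r, A, μ, -, hA, hμ, hmA, hr⟩ := hyp_gen m
    have hr' := hr hind
    rw [card_J] at hr'
    rcases hF with hF | hF
    · -- degree two: impossible
      exfalso
      rw [hF] at hr'
      obtain ⟨u, hu1, hu2, hu3, -⟩ := basis_odd (M := M) θ hs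
      have hpos : 0 < Module.finrank ℚ F - 1 := by omega
      have hsub : Subsingleton (Fin r) := Fin.subsingleton_iff_le_one.2 (by omega)
      have key : ∀ l, ∑ j, A j l * logLin hL (inc.comp (γ j : M →+* M)) (u ⟨0, hpos⟩) = 0 := by
        intro l
        have h1 := hm _ (hu2 ⟨0, hpos⟩)
        have h2 : ∀ j, m j = A j l * μ l := by
          intro j
          rw [hmA, Fintype.sum_subsingleton _ l]
        have h3 : μ l * ∑ j, A j l * logLin hL (inc.comp (γ j : M →+* M)) (u ⟨0, hpos⟩) = 0 := by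
          rw [← h1, Finset.mul_sum]
          refine Finset.sum_congr rfl fun j _ => ?_
          rw [h2]
          ring
        exact (mul_eq_zero.1 h3).resolve_left (hμ.ne_zero l)
      obtain ⟨j₀, hj₀⟩ := hm0
      apply hj₀
      rw [hmA]
      refine Finset.sum_eq_zero fun l _ => ?_
      have h5 : ∑ j, A j l • push (γ j : M →+* M) (u ⟨0, hpos⟩) = 0 := by
        apply eq_zero_of_log hL inc (Submodule.sum_mem _ fun j _ =>
          smul_mem_AU (push_mem_AU _ (hu1 _)) (hA j l))
        rw [map_sum, ← key l]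
        refine Finset.sum_congr rfl fun j _ => ?_
        rw [map_smul, smul_eq_mul, logLin_push]
      have h6 := separate1 (by rw [card_J]; omega) (fun i => push (cj c (γ i)))
        (fun j => A j l • push (γ j : M →+* M) (u ⟨0, hpos⟩)) (fun i j => by
          rw [map_smul, D_odd hγ ht₀ hc hs (hu2 _) i j, smul_comm]) h5 j₀
      rcases smul_eq_zero.1 h6 with h7 | h7
      · rw [h7, zero_mul]
      · exact absurd h7 (push_ne_zero θ _ (hu3.ne_zero _))
    · have h1 := count_core θ hL hs m hm ψ' hψ' hs' w hwA hwχ hw0 ε hεA hε0 hrel A μ hA hμ hmA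
        (fun U b hU h => by
          obtain ⟨j₀, hj₀⟩ := hm0
          obtain ⟨l, hl⟩ : ∃ l, A j₀ l ≠ 0 := by
            by_contra hcon
            push Not at hcon
            apply hj₀
            rw [hmA]
            exact Finset.sum_eq_zero fun l _ => by rw [hcon l, zero_mul]
          refine ⟨j₀, ?_⟩
          have h2 := separate (by rw [card_J]; omega) (fun i => push (cj c (γ i)))
            (fun j => A j l • push (γ j : M →+* M) U)
            (fun j => A j l • push (γ j : M →+* M) (∑ i, (b i * ε i j) • w i))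
            (fun i j => by
              rw [map_smul, D_odd hγ ht₀ hc hs hU i j, smul_comm])
            (fun i j => by
              rw [map_smul, map_sum, map_sum, smul_comm, Finset.smul_sum (r := if i = j then _ else _)]
              congr 1
              refine Finset.sum_congr rfl fun q _ => ?_
              rw [map_smul, map_smul, D_even hγ ht₀ hc (hs' q) (hwχ q) i j, smul_comm])
            (by
              rw [← h l]
              refine Finset.sum_congr rfl fun j _ => ?_
              rw [map_add, smul_add])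
          have h3 := (smul_eq_zero.1 (h2.1 j₀)).resolve_left hl
          have h4 := (smul_eq_zero.1 (h2.2 j₀)).resolve_left hl
          by_contra h5
          exact push_ne_zero θ (γ j₀ : M →+* M) h5 (by rw [map_add, h3, h4, add_zero]))
      rw [hF] at h1 hr' ⊢
      have h9 : r * (r - 1) ≤ 2 * (2 - 1) :=
        Nat.mul_le_mul (by omega) (by omega)
      omega

end cnt

end Pool.Agent.V7H53.SY
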