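import Pool.Agent.V7H53.SY.Sep

set_option autoImplicit false
set_option linter.unusedSectionVars false

/-!
# The dimension of the eigenspaces over a totally real field
-/

namespace Pool.Agent.V7H53.SY

open NumberField TensorProduct Pool.Agent.W289.SL Pool.Agent.W332.SL6 Pool.Agent.V7H53.SX
open Pool.Agent.W254.PA (exists_theta LgP Hyp LtE)

variable {p : ℕ} [Fact p.Prime]

section dim

variable {F M : Type} [Field F] [NumberField F] [IsTotallyReal F] [Field M] [NumberField M]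
  [Algebra F M] [FiniteDimensional F M] [IsGalois F M]

lemma exists_extC (v : F →+* ℂ) : ∃ t : M →+* ℂ, t.comp (algebraMap F M) = v := by
  let := v.toAlgebra
  have : Algebra.IsAlgebraic F M := Algebra.IsAlgebraic.of_finite F M
  let φ : M →ₐ[F] ℂ := IsAlgClosed.lift
  exact ⟨φ, φ.comp_algebraMap⟩

lemma mk_inj_F {v v' : F →+* ℂ} (h : InfinitePlace.mk v = InfinitePlace.mk v') : v = v' := by
  rcases InfinitePlace.mk_eq_iff.1 h with h1 | h1
  · exact h1
  · rw [← h1]
    exact (real_F v).symm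

/-- a vector killed by the real logarithms at the even places is zero -/
lemma eq_zero_of_even (θ : ℂ_[p] ≃+* ℂ) {ψ : (M ≃ₐ[F] M) →* ℂ_[p]ˣ} {s : (F →+* ℂ) → ℂ_[p]}
    (hs : SignAt ψ s) {x : UM p M} (hx : InChi ψ x)
    (h : ∀ v : F →+* ℂ, s v ≠ -1 → ∃ t : M →+* ℂ, t.comp (algebraMap F M) = v ∧ lam θ t x = 0) :
    x = 0 := by
  apply eq_zero_of_lam θ
  intro t
  by_cases hv : s (t.comp (algebraMap F M)) = -1
  · obtain ⟨g, hg⟩ := exists_conjF (F := F) t
    have h1 : t.comp (g : M →+* M) = (starRingEnd ℂ).comp t := RingHom.ext hg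
    have h2 := lam_inChi θ hx t g
    rw [h1, lam_conj, hs t g hg, hv] at h2
    have h3 : (2 : ℂ_[p]) * lam θ t x = 0 := by linear_combination h2
    exact (mul_eq_zero.1 h3).resolve_left two_ne_zero
  · obtain ⟨t', ht', h0⟩ := h _ hv
    exact lam_zero_of_place θ hx t t' (by rw [ht']) h0

variable [IsTotallyComplex M]

lemma mk_comp_iff (t : M →+* ℂ) (c : M ≃ₐ[F] M) (hc : ∀ y, t (c y) = star (t y))
    (g g' : M ≃ₐ[F] M) :
    InfinitePlace.mk (t.comp (g : M →+* M)) = InfinitePlace.mk (t.comp (g' : M →+* M)) ↔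
      g = g' ∨ g = c * g' := by
  have hcc : ∀ y, c (c y) = y := by
    intro y
    apply t.injective
    rw [hc, hc, star_star]
  rw [InfinitePlace.mk_eq_iff]
  constructor
  · rintro (h | h)
    · left
      ext y
      exact t.injective (RingHom.congr_fun h y)
    · right
      ext y
      have h1 := RingHom.congr_fun h y
      rw [ComplexEmbedding.conjugate_coe_eq] at h1
      have h2 : star (t (g y)) = t (g' y) := h1
      rw [← hc] at h2
      have h3 := congrArg c (t.injective h2)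
      rw [hcc] at h3
      exact h3
  · rintro (rfl | rfl)
    · exact Or.inl rfl
    · right
      ext y
      rw [ComplexEmbedding.conjugate_coe_eq]
      change star (t (c (g' y))) = t (g' y)
      rw [hc, star_star]

lemma conj_ne_one (t : M →+* ℂ) (c : M ≃ₐ[F] M) (hc : ∀ y, t (c y) = star (t y)) : c ≠ 1 := by
  rintro rfl
  refine IsTotallyComplex.complexEmbedding_not_isReal t ?_
  rw [ComplexEmbedding.isReal_iff]
  ext y
  rw [ComplexEmbedding.conjugate_coe_eq]
  exact (hc y).symm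

/-- the real logarithms at the even places are independent on the eigenspace -/
theorem indepR (θ : ℂ_[p] ≃+* ℂ) {ψ : (M ≃ₐ[F] M) →* ℂ_[p]ˣ} (hψ : ψ ≠ 1)
    {s : (F →+* ℂ) → ℂ_[p]} (hs : SignAt ψ s) {V : Type} [Fintype V] [DecidableEq V]
    (e : V → (F →+* ℂ)) (he : Function.Injective e) (hse : ∀ v, s (e v) = 1)
    (t : V → (M →+* ℂ)) (ht : ∀ v, (t v).comp (algebraMap F M) = e v) (c : V → ℂ_[p])
    (h : ∀ u : Additive (𝓞 M)ˣ, ∑ v, c v * lam θ (t v) (xu ψ u) = 0) (v : V) : c v = 0 := by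
  classical
  choose cc hcc using fun v => exists_conjF (F := F) (t v)
  have hcc1 : ∀ v, ψ (cc v) = 1 := by
    intro v
    apply Units.ext
    rw [hs (t v) (cc v) (hcc v), ht, hse, Units.val_one]
  let f : InfinitePlace M → ℂ := fun w => ∑ v : V,
    ∑ g : M ≃ₐ[F] M, if InfinitePlace.mk ((t v).comp (g : M →+* M)) = w then
      θ (c v) * θ ((ψ g⁻¹ : ℂ_[p]ˣ) : ℂ_[p]) else 0
  have hf : ∀ u : (𝓞 M)ˣ, ∑ w, f w * (Real.log (w (u : 𝓞 M)) : ℂ) = 0 := by
    intro u
    have h1 := congrArg θ (h (Additive.ofMul u))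
    rw [map_sum, map_zero] at h1
    rw [← h1]
    have h2 : ∀ (t : M →+* ℂ) (d : ℂ_[p]), ∑ w : InfinitePlace M,
        (∑ g : M ≃ₐ[F] M, if InfinitePlace.mk (t.comp (g : M →+* M)) = w then
          θ d * θ ((ψ g⁻¹ : ℂ_[p]ˣ) : ℂ_[p]) else 0) * (Real.log (w (u : 𝓞 M)) : ℂ) =
        θ d * ∑ g : M ≃ₐ[F] M, θ ((ψ g⁻¹ : ℂ_[p]ˣ) : ℂ_[p]) *
          ((Real.log (InfinitePlace.mk (t.comp (g : M →+* M)) (u : 𝓞 M)) : ℝ) : ℂ) := by
      intro t d
      simp only [Finset.sum_mul]
      rw [Finset.sum_comm, Finset.mul_sum]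
      refine Finset.sum_congr rfl fun g _ => ?_
      rw [Finset.sum_eq_single (InfinitePlace.mk (t.comp (g : M →+* M)))]
      · rw [if_pos rfl]; ring
      · intro w _ hw
        rw [if_neg (Ne.symm hw), zero_mul]
      · intro hw
        exact absurd (Finset.mem_univ _) hw
    have h3 : ∀ w : InfinitePlace M, f w * (Real.log (w (u : 𝓞 M)) : ℂ) = ∑ v : V,
        (∑ g : M ≃ₐ[F] M, if InfinitePlace.mk ((t v).comp (g : M →+* M)) = w then
          θ (c v) * θ ((ψ g⁻¹ : ℂ_[p]ˣ) : ℂ_[p]) else 0) * (Real.log (w (u : 𝓞 M)) : ℂ) := by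
      intro w
      simp only [f]
      rw [Finset.sum_mul]
    rw [Finset.sum_congr rfl (fun w _ => h3 w), Finset.sum_comm]
    refine Finset.sum_congr rfl fun v _ => ?_
    rw [h2, map_mul, lam_xu]
  have hconst := const_of_rel f hf
  obtain ⟨g0, hg0⟩ : ∃ g0 : M ≃ₐ[F] M, ψ g0 ≠ 1 := by
    by_contra hcon
    push Not at hcon
    exact hψ (MonoidHom.ext hcon)
  have hval : ∀ g : M ≃ₐ[F] M, f (InfinitePlace.mk ((t v).comp (g : M →+* M))) =
      2 * (θ (c v) * θ ((ψ g⁻¹ : ℂ_[p]ˣ) : ℂ_[p])) := by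
    intro g
    simp only [f]
    rw [Finset.sum_eq_single v]
    · have hne : g ≠ cc v * g := by
        intro h1
        have h2 : cc v = 1 := mul_eq_right.1 h1.symm
        exact conj_ne_one (t v) (cc v) (hcc v) h2
      rw [Finset.sum_eq_add g (cc v * g) hne]
      · rw [if_pos rfl, if_pos ((mk_comp_iff (t v) (cc v) (hcc v) _ _).2 (Or.inr rfl)),
          mul_inv_rev, map_mul, map_inv ψ (cc v), hcc1, inv_one, mul_one]
        ring
      · intro g' _ hg'
        rw [if_neg]
        intro h1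
        rcases (mk_comp_iff (t v) (cc v) (hcc v) _ _).1 h1 with h2 | h2
        · exact hg'.1 h2
        · exact hg'.2 h2
      · intro h1
        exact absurd (Finset.mem_univ _) h1
      · intro h1
        exact absurd (Finset.mem_univ _) h1
    · intro v' _ hv'
      refine Finset.sum_eq_zero fun g' _ => if_neg fun h1 => hv' (he ?_)
      have h2 := congrArg (fun w : InfinitePlace M => w.comap (algebraMap F M)) h1
      simp only [InfinitePlace.comap_mk] at h2
      have hg : ∀ (s : M →+* ℂ) (g : M ≃ₐ[F] M), (s.comp (g : M →+* M)).comp (algebraMap F M) =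
          s.comp (algebraMap F M) := by
        intro s g
        ext k
        change s (g (algebraMap F M k)) = s (algebraMap F M k)
        rw [AlgEquiv.commutes]
      rw [hg, hg, ht, ht] at h2
      exact mk_inj_F h2
    · intro h1
      exact absurd (Finset.mem_univ _) h1
  have h1 : f (InfinitePlace.mk ((t v).comp ((g0⁻¹ : M ≃ₐ[F] M) : M →+* M))) =
      f (InfinitePlace.mk ((t v).comp ((1 : M ≃ₐ[F] M) : M →+* M))) := hconst _ _
  rw [hval, hval, inv_inv, inv_one, map_one, Units.val_one, map_one, mul_one] at h1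
  have h2 : θ (c v) * (θ ((ψ g0 : ℂ_[p]ˣ) : ℂ_[p]) - 1) = 0 := by
    have h3 : (2 : ℂ) ≠ 0 := two_ne_zero
    apply mul_left_cancel₀ h3
    linear_combination h1
  rcases mul_eq_zero.1 h2 with h3 | h3
  · exact (map_eq_zero θ).1 h3
  · exfalso
    apply hg0
    apply Units.ext
    apply θ.injective
    rw [Units.val_one, map_one]
    linear_combination h3

/-- a basis of the eigenspace, indexed by the even places -/
theorem exists_basis (θ : ℂ_[p] ≃+* ℂ) {ψ : (M ≃ₐ[F] M) →* ℂ_[p]ˣ} (hψ : ψ ≠ 1)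
    {s : (F →+* ℂ) → ℂ_[p]} (hs : SignAt ψ s) {V : Type} [Fintype V]
    (e : V → (F →+* ℂ)) (he : Function.Injective e) (hse : ∀ v, s (e v) = 1)
    (hse' : ∀ v, s v ≠ -1 → ∃ w, e w = v) :
    ∃ u : Fin (Fintype.card V) → UM p M, (∀ k, u k ∈ AU p M) ∧ (∀ k, InChi ψ (u k)) ∧
      LinearIndependent ℂ_[p] u ∧
      ∀ x : UM p M, InChi ψ x → ∃ a : Fin (Fintype.card V) → ℂ_[p], x = ∑ k, a k • u k := by
  classical
  choose t ht using fun v : V => exists_extC (M := M) (e v)
  let Φ : UM p M →ₗ[ℂ_[p]] (V → ℂ_[p]) := LinearMap.pi fun v => lam θ (t v)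
  have hΦ : ∀ x v, Φ x v = lam θ (t v) x := fun x v => rfl
  have htop : Submodule.span ℂ_[p] (Set.range fun u : Additive (𝓞 M)ˣ => Φ (xu ψ u)) = ⊤ := by
    by_contra hcon
    obtain ⟨f, hf0, hf⟩ := Submodule.exists_le_ker_of_lt_top _ (lt_top_iff_ne_top.2 hcon)
    apply hf0
    have hfs := LinearMap.pi_apply_eq_sum_univ f
    have hc := indepR θ hψ hs e he hse t ht (fun v => f fun j => if v = j then 1 else 0)
      (fun u => by
        have h1 : f (Φ (xu ψ u)) = 0 := hf (Submodule.subset_span ⟨u, rfl⟩)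
        rw [hfs] at h1
        refine Eq.trans (Finset.sum_congr rfl fun v _ => ?_) h1
        rw [smul_eq_mul, hΦ, mul_comm])
    refine LinearMap.ext fun y => ?_
    rw [hfs, LinearMap.zero_apply]
    refine Finset.sum_eq_zero fun w _ => ?_
    have h2 := hc w
    rw [h2, smul_zero]
  obtain ⟨f, hf1, hf2, hf3⟩ := Submodule.exists_fun_fin_finrank_span_eq ℂ_[p]
    (Set.range fun u : Additive (𝓞 M)ˣ => Φ (xu ψ u))
  have hcard : Module.finrank ℂ_[p]
      (Submodule.span ℂ_[p] (Set.range fun u : Additive (𝓞 M)ˣ => Φ (xu ψ u))) =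
      Fintype.card V := by
    rw [htop, finrank_top, Module.finrank_fintype_fun_eq_card]
  obtain ⟨n, f, hf1, hf2, hf3, rfl⟩ : ∃ (n : ℕ) (f : Fin n → (V → ℂ_[p])),
      (∀ i, f i ∈ Set.range fun u : Additive (𝓞 M)ˣ => Φ (xu ψ u)) ∧
      Submodule.span ℂ_[p] (Set.range f) = ⊤ ∧ LinearIndependent ℂ_[p] f ∧
      n = Fintype.card V := ⟨_, f, hf1, hf2.trans htop, hf3, hcard⟩
  choose b hb using hf1
  have hb' : ∀ k, Φ (xu ψ (b k)) = f k := hb
  refine ⟨fun k => xu ψ (b k), fun k => xu_mem_AU ψ _, fun k => xu_inChi ψ _, ?_, ?_⟩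
  · refine LinearIndependent.of_comp Φ ?_
    have h1 : (Φ ∘ fun k => xu ψ (b k)) = f := funext hb'
    rw [h1]
    exact hf3
  · intro x hx
    have h1 : Φ x ∈ Submodule.span ℂ_[p] (Set.range f) := by
      rw [hf2]; exact Submodule.mem_top
    obtain ⟨a, ha⟩ := (Submodule.mem_span_range_iff_exists_fun ℂ_[p]).1 h1
    refine ⟨a, ?_⟩
    rw [← sub_eq_zero]
    have hin : InChi ψ (∑ k, a k • xu ψ (b k)) := by
      intro τ
      rw [map_sum, Finset.smul_sum]
      refine Finset.sum_congr rfl fun k _ => ?_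
      rw [map_smul, xu_inChi ψ _ τ, smul_comm]
    refine eq_zero_of_even θ hs (hx.sub hin) fun v hv => ?_
    obtain ⟨w, rfl⟩ := hse' v hv
    refine ⟨t w, ht w, ?_⟩
    rw [← hΦ, map_sub, map_sum]
    have h2 : ∑ k, Φ (a k • xu ψ (b k)) = Φ x := by
      rw [← ha]
      refine Finset.sum_congr rfl fun k _ => ?_
      rw [map_smul, hb']
    rw [h2, sub_self]
    rfl

end dim

end Pool.Agent.V7H53.SY
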