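import Pool.Agent.V7H53.SY.Cnt

set_option autoImplicit false
set_option linter.unusedSectionVars false

/-!
# Failures of the statement over a CM extension
-/

namespace Pool.Agent.V7H53.SY

open NumberField TensorProduct Pool.Agent.W289.SL Pool.Agent.W332.SL6 Pool.Agent.V7H53.SX
open Pool.Agent.W254.PA (exists_theta LgP Hyp LtE)

variable {p : ℕ} [Fact p.Prime]

/-- sign vectors which annihilate a vector without zeros of length at most three -/
lemma signs {J : Type} [Fintype J] (hJ : Fintype.card J ≤ 3) (y : J → ℂ_[p]) (hy : ∀ j, y j ≠ 0)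
    (ε ε' : J → ℂ_[p]) (hε : ∀ j, ε j = 1 ∨ ε j = -1) (hε' : ∀ j, ε' j = 1 ∨ ε' j = -1)
    (h : ∑ j, ε j * y j = 0) (h' : ∑ j, ε' j * y j = 0) :
    (∀ j, ε' j = ε j) ∨ ∀ j, ε' j = -ε j := by
  classical
  have hε0 : ∀ j, ε j ≠ 0 := by
    intro j
    rcases hε j with h1 | h1 <;> rw [h1]
    · exact one_ne_zero
    · exact neg_ne_zero.2 one_ne_zero
  have hneg : ∀ j, ε' j ≠ ε j → ε' j = -ε j := by
    intro j hj
    rcases hε j with h1 | h1 <;> rcases hε' j with h2 | h2 <;> rw [h1, h2] at hj ⊢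
    · exact absurd rfl hj
    · rw [neg_neg]
    · exact absurd rfl hj
  -- the sum over the set where they agree
  have hA : ∑ j ∈ Finset.univ.filter (fun j => ε' j = ε j), ε j * y j = 0 := by
    have h1 : ∑ j, (ε j * y j + ε' j * y j) = 0 := by
      rw [Finset.sum_add_distrib, h, h', add_zero]
    have h2 : ∀ j, ε j * y j + ε' j * y j = if ε' j = ε j then 2 * (ε j * y j) else 0 := by
      intro j
      by_cases hj : ε' j = ε j
      · rw [if_pos hj, hj]; ring
      · rw [if_neg hj, hneg j hj]; ring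
    rw [Finset.sum_congr rfl (fun j _ => h2 j), ← Finset.sum_filter, ← Finset.mul_sum] at h1
    exact (mul_eq_zero.1 h1).resolve_left two_ne_zero
  have hB : ∑ j ∈ Finset.univ.filter (fun j => ¬ ε' j = ε j), ε j * y j = 0 := by
    have h1 := Finset.sum_filter_add_sum_filter_not Finset.univ (fun j => ε' j = ε j)
      (fun j => ε j * y j)
    rw [hA, h, zero_add] at h1
    exact h1
  have hone : ∀ s : Finset J, ∑ j ∈ s, ε j * y j = 0 → s.card ≠ 1 := by
    intro s hs hc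
    obtain ⟨j, rfl⟩ := Finset.card_eq_one.1 hc
    rw [Finset.sum_singleton] at hs
    exact (mul_ne_zero (hε0 j) (hy j)) hs
  have hcA := hone _ hA
  have hcB := hone _ hB
  have hsum := Finset.card_filter_add_card_filter_not (s := (Finset.univ : Finset J))
    (fun j => ε' j = ε j)
  rw [Finset.card_univ] at hsum
  have h01 : (Finset.univ.filter (fun j => ε' j = ε j)).card = 0 ∨
      (Finset.univ.filter (fun j => ¬ ε' j = ε j)).card = 0 := by omega
  rcases h01 with h1 | h1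
  · right
    intro j
    rw [Finset.card_eq_zero, Finset.filter_eq_empty_iff] at h1
    exact hneg j (h1 (Finset.mem_univ j))
  · left
    intro j
    rw [Finset.card_eq_zero, Finset.filter_eq_empty_iff] at h1
    exact not_not.1 (h1 (Finset.mem_univ j))

section quad

variable {F K M : Type} [Field F] [NumberField F] [Field K] [NumberField K] [Field M]
  [NumberField M] [Algebra F K] [Algebra F M] [Algebra K M] [IsScalarTower F K M] [IsGalois F K]
  [FiniteDimensional F M] [IsGalois F M]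

/-- decomposition of a vector in the `χ`-part -/
theorem split (hK : Nat.card (K ≃ₐ[F] K) = 2) (ψM : (M ≃ₐ[F] M) →* ℂ_[p]ˣ) (X : UM p M)
    (hX : ∀ g : M ≃ₐ[F] M, g.restrictNormal K = 1 →
      push (g : M →+* M) X = ((ψM g : ℂ_[p]ˣ) : ℂ_[p]) • X) :
    ∃ x1 x2 : UM p M, InChi ψM x1 ∧ InChi (ψM * sgnM p F K M hK) x2 ∧
      (2 : ℂ_[p]) • X = x1 + x2 := by
  classical
  obtain ⟨t0, ht0, hu⟩ := (Nat.card_eq_two_iff' (1 : K ≃ₐ[F] K)).1 hK
  obtain ⟨t, ht⟩ := AlgEquiv.restrictNormalHom_surjective (F := F) (K₁ := K) M t0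
  have htK : t.restrictNormal K ≠ 1 := by
    intro h
    apply ht0
    rw [← ht]
    exact h
  have hmul : ∀ g h : M ≃ₐ[F] M, (g * h).restrictNormal K =
      g.restrictNormal K * h.restrictNormal K := fun g h =>
    map_mul (AlgEquiv.restrictNormalHom (F := F) (K₁ := M) K) g h
  have hinv : ∀ g : M ≃ₐ[F] M, (g⁻¹).restrictNormal K = (g.restrictNormal K)⁻¹ := fun g =>
    map_inv (AlgEquiv.restrictNormalHom (F := F) (K₁ := M) K) g
  have hne : ∀ g : M ≃ₐ[F] M, g.restrictNormal K ≠ 1 → g.restrictNormal K = t.restrictNormal K := by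
    intro g hg
    rw [hu _ hg, hu _ htK]
  have hpp : ∀ (g h : M ≃ₐ[F] M) (x : UM p M), push (g : M →+* M) (push (h : M →+* M) x) =
      push ((g * h : M ≃ₐ[F] M) : M →+* M) x := fun g h x => push_push _ _ x
  set y : UM p M := ((ψM t⁻¹ : ℂ_[p]ˣ) : ℂ_[p]) • push (t : M →+* M) X with hy
  -- the action on `y`
  have hψ : ∀ g h : M ≃ₐ[F] M, ((ψM (g * h) : ℂ_[p]ˣ) : ℂ_[p]) =
      ((ψM g : ℂ_[p]ˣ) : ℂ_[p]) * ((ψM h : ℂ_[p]ˣ) : ℂ_[p]) := fun g h => by
    rw [map_mul, Units.val_mul]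
  have hψt : ((ψM t⁻¹ : ℂ_[p]ˣ) : ℂ_[p]) * ((ψM t : ℂ_[p]ˣ) : ℂ_[p]) = 1 := by
    rw [← hψ, inv_mul_cancel, map_one, Units.val_one]
  have hyK : ∀ g : M ≃ₐ[F] M, g.restrictNormal K = 1 →
      push (g : M →+* M) y = ((ψM g : ℂ_[p]ˣ) : ℂ_[p]) • y := by
    intro g hg
    have h1 : (t⁻¹ * g * t).restrictNormal K = 1 := by
      rw [hmul, hmul, hg, mul_one, hinv, inv_mul_cancel]
    rw [hy, map_smul, hpp]
    have h2 : g * t = t * (t⁻¹ * g * t) := by group
    rw [h2, ← hpp, hX _ h1, map_smul, smul_smul, smul_smul, hψ, hψ]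
    congr 1
    linear_combination (((ψM t⁻¹ : ℂ_[p]ˣ) : ℂ_[p]) * ((ψM g : ℂ_[p]ˣ) : ℂ_[p])) * hψt
  have hXt : ∀ g : M ≃ₐ[F] M, g.restrictNormal K ≠ 1 →
      push (g : M →+* M) X = ((ψM g : ℂ_[p]ˣ) : ℂ_[p]) • y := by
    intro g hg
    have h1 : (t⁻¹ * g).restrictNormal K = 1 := by
      rw [hmul, hne g hg, hinv, inv_mul_cancel]
    have h2 : g = t * (t⁻¹ * g) := by group
    rw [h2, ← hpp, hX _ h1, map_smul, hy, smul_smul, ← h2, hψ]
    congr 1
    ring
  have hyt : ∀ g : M ≃ₐ[F] M, g.restrictNormal K ≠ 1 →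
      push (g : M →+* M) y = ((ψM g : ℂ_[p]ˣ) : ℂ_[p]) • X := by
    intro g hg
    have h1 : (g * t).restrictNormal K = 1 := by
      have h3 := hmul g t
      rw [hne g hg] at h3
      rw [h3]
      by_contra h4
      have h5 := hu _ h4
      rw [← hu _ htK] at h5
      exact htK (mul_eq_left.1 h5)
    rw [hy, map_smul, hpp, hX _ h1, smul_smul, hψ]
    congr 1
    linear_combination ((ψM g : ℂ_[p]ˣ) : ℂ_[p]) * hψt
  -- the two components
  refine ⟨X + y, X - y, ?_, ?_, ?_⟩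
  · intro g
    rw [actLin_eq, map_add]
    by_cases hg : g.restrictNormal K = 1
    · rw [hX g hg, hyK g hg, smul_add]
    · rw [hXt g hg, hyt g hg, smul_add, add_comm]
  · intro g
    rw [actLin_eq, map_sub, MonoidHom.mul_apply]
    by_cases hg : g.restrictNormal K = 1
    · rw [(sgnM_eq_one hK g).2 hg, mul_one, hX g hg, hyK g hg, smul_sub]
    · have h1 : sgnM p F K M hK g = -1 := sgn_of_ne hK hg
      rw [h1, hXt g hg, hyt g hg, mul_neg, mul_one, Units.val_neg, neg_smul, smul_sub, neg_sub]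
  · rw [two_smul]; abel

end quad

section fail

variable {F K M : Type} [Field F] [NumberField F] [IsTotallyReal F] [Field K] [NumberField K]
  [IsTotallyComplex K] [Field M] [NumberField M] [IsTotallyComplex M] [Algebra F K] [Algebra F M]
  [Algebra K M] [IsScalarTower F K M] [IsGalois F K] [FiniteDimensional F M] [IsGalois F M]
  {inc : M →+* ℂ_[p]} {γ : (F →+* ℂ_[p]) → (M ≃ₐ[ℚ] M)}

/-- the quadratic character of a totally complex extension is totally odd -/
lemma sgnM_conj (hK : Nat.card (K ≃ₐ[F] K) = 2) (t : M →+* ℂ) (g : M ≃ₐ[F] M)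
    (hg : ∀ y, t (g y) = star (t y)) : sgnM p F K M hK g = -1 := by
  refine sgn_of_ne hK fun h => ?_
  refine IsTotallyComplex.complexEmbedding_not_isReal (t.comp (algebraMap K M)) ?_
  rw [ComplexEmbedding.isReal_iff]
  ext y
  rw [ComplexEmbedding.conjugate_coe_eq]
  change star (t (algebraMap K M y)) = t (algebraMap K M y)
  have h1 : g.restrictNormal K = 1 := h
  rw [← hg, ← AlgEquiv.restrictNormal_commutes, h1]
  rfl

lemma sign_mul_odd (hK : Nat.card (K ≃ₐ[F] K) = 2) {v₀ : F →+* ℂ}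
    {ψM : (M ≃ₐ[F] M) →* ℂ_[p]ˣ} (hs : SignAt ψM (sgo p v₀)) :
    SignAt (ψM * sgnM p F K M hK) (sge p v₀) := by
  intro t g hg
  rw [MonoidHom.mul_apply, Units.val_mul, hs t g hg, sgnM_conj hK t g hg, Units.val_neg,
    Units.val_one]
  by_cases h : t.comp (algebraMap F M) = v₀
  · rw [h, sgo_self, sge_self]; ring
  · rw [sgo_ne h, sge_ne h]; ring

lemma sign_mul_even (hK : Nat.card (K ≃ₐ[F] K) = 2) {v₀ : F →+* ℂ}
    {ψM : (M ≃ₐ[F] M) →* ℂ_[p]ˣ} (hs : SignAt ψM (sge p v₀)) :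
    SignAt (ψM * sgnM p F K M hK) (sgo p v₀) := by
  intro t g hg
  rw [MonoidHom.mul_apply, Units.val_mul, hs t g hg, sgnM_conj hK t g hg, Units.val_neg,
    Units.val_one]
  by_cases h : t.comp (algebraMap F M) = v₀
  · rw [h, sgo_self, sge_self]; ring
  · rw [sgo_ne h, sge_ne h]; ring

/-- **A failure gives a relation.** -/
theorem fail_eps (θ : ℂ_[p] ≃+* ℂ) {L : ℂ_[p] → ℂ_[p]} (hL : IsIwasawaLog p L)
    (hF : Module.finrank ℚ F = 2 ∨ Module.finrank ℚ F = 3)
    (hγ : ∀ j, (inc.comp (γ j : M →+* M)).comp (algebraMap F M) = j) {v₀ : F →+* ℂ}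
    {ψM : (M ≃ₐ[F] M) →* ℂ_[p]ˣ} (hs : SignAt ψM (sgo p v₀))
    (m : (F →+* ℂ_[p]) → ℂ_[p])
    (hm : ∀ x : UM p M, InChi ψM x → ∑ j, m j * logLin hL (inc.comp (γ j : M →+* M)) x = 0)
    (hK : Nat.card (K ≃ₐ[F] K) = 2) (S : Set (K →+* ℂ_[p])) (hS : IsCMType p F K S)
    (X : UM p M) (hX0 : X ≠ 0)
    (hX : ∀ g : M ≃ₐ[F] M, g.restrictNormal K = 1 →
      push (g : M →+* M) X = ((ψM g : ℂ_[p]ˣ) : ℂ_[p]) • X)
    (hlog : ∀ σ : M →+* ℂ_[p], σ.comp (algebraMap K M) ∈ S → logLin hL σ X = 0)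
    (w : UM p M) (hw : ∀ x : UM p M, InChi (ψM * sgnM p F K M hK) x → ∃ a : ℂ_[p], x = a • w) :
    ∃ ε : (F →+* ℂ_[p]) → ℂ_[p], (∀ j, ε j = 1 ∨ ε j = -1) ∧
      (∀ j (g : M ≃ₐ[F] M), ((inc.comp (γ j : M →+* M)).comp (g : M →+* M)).comp
        (algebraMap K M) ∈ S ↔ ((sgnM p F K M hK g : ℂ_[p]ˣ) : ℂ_[p]) = ε j) ∧
      ∑ j, m j * (ε j * logLin hL (inc.comp (γ j : M →+* M)) w) = 0 := by
  classical
  obtain ⟨t0, ht0, hu⟩ := (Nat.card_eq_two_iff' (1 : K ≃ₐ[F] K)).1 hK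
  obtain ⟨t, ht⟩ := AlgEquiv.restrictNormalHom_surjective (F := F) (K₁ := K) M t0
  let ε : (F →+* ℂ_[p]) → ℂ_[p] := fun j =>
    if (inc.comp (γ j : M →+* M)).comp (algebraMap K M) ∈ S then 1 else -1
  have hres : ∀ (σ : M →+* ℂ_[p]) (g : M ≃ₐ[F] M), (σ.comp (g : M →+* M)).comp (algebraMap K M) =
      (σ.comp (algebraMap K M)).comp ((g.restrictNormal K : K ≃ₐ[F] K) : K →+* K) := by
    intro σ g
    ext y
    change σ (g (algebraMap K M y)) = σ (algebraMap K M (g.restrictNormal K y))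
    rw [AlgEquiv.restrictNormal_commutes]
  have hεS : ∀ j (g : M ≃ₐ[F] M), ((inc.comp (γ j : M →+* M)).comp (g : M →+* M)).comp
      (algebraMap K M) ∈ S ↔ ((sgnM p F K M hK g : ℂ_[p]ˣ) : ℂ_[p]) = ε j := by
    intro j g
    rw [hres]
    by_cases hg : g.restrictNormal K = 1
    · rw [(sgnM_eq_one hK g).2 hg, hg, Units.val_one]
      have h1 : ((inc.comp (γ j : M →+* M)).comp (algebraMap K M)).comp
          ((1 : K ≃ₐ[F] K) : K →+* K) = (inc.comp (γ j : M →+* M)).comp (algebraMap K M) := rfl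
      rw [h1]
      by_cases h2 : (inc.comp (γ j : M →+* M)).comp (algebraMap K M) ∈ S
      · simp only [ε]
        rw [if_pos h2]
        exact ⟨fun _ => rfl, fun _ => h2⟩
      · simp only [ε]
        rw [if_neg h2]
        exact ⟨fun h => absurd h h2, fun h => absurd h one_ne_neg_one⟩
    · have h1 : sgnM p F K M hK g = -1 := sgn_of_ne hK hg
      rw [h1, Units.val_neg, Units.val_one]
      have h3 := hS _ hg ((inc.comp (γ j : M →+* M)).comp (algebraMap K M))
      by_cases h2 : (inc.comp (γ j : M →+* M)).comp (algebraMap K M) ∈ S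
      · simp only [ε]
        rw [if_pos h2]
        exact ⟨fun h => absurd h (h3.1 h2), fun h => absurd h.symm one_ne_neg_one⟩
      · simp only [ε]
        rw [if_neg h2]
        refine ⟨fun _ => rfl, fun _ => ?_⟩
        by_contra h4
        exact h2 (h3.2 h4)
  have hε1 : ∀ j, ε j = 1 ∨ ε j = -1 := by
    intro j
    simp only [ε]
    split_ifs
    · exact Or.inl rfl
    · exact Or.inr rfl
  refine ⟨ε, hε1, hεS, ?_⟩
  obtain ⟨x1, x2, hx1, hx2, hsum⟩ := split hK ψM X hX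
  have key : ∀ j, logLin hL (inc.comp (γ j : M →+* M)) x1 +
      ε j * logLin hL (inc.comp (γ j : M →+* M)) x2 = 0 := by
    intro j
    obtain ⟨g, hg⟩ : ∃ g : M ≃ₐ[F] M, ((sgnM p F K M hK g : ℂ_[p]ˣ) : ℂ_[p]) = ε j := by
      rcases hε1 j with h | h
      · exact ⟨1, by rw [map_one, Units.val_one, h]⟩
      · refine ⟨t, ?_⟩
        have h1 : sgnM p F K M hK t = -1 := sgn_of_ne hK (by
          rw [ht]
          exact ht0)
        rw [h1, Units.val_neg, Units.val_one, h]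
    have h1 := hlog _ ((hεS j g).2 hg)
    have h2 := congrArg (logLin hL ((inc.comp (γ j : M →+* M)).comp (g : M →+* M))) hsum
    rw [map_smul, h1, smul_zero, map_add, logLin_inChi hL hx1, logLin_inChi hL hx2,
      MonoidHom.mul_apply, Units.val_mul, hg] at h2
    have h4 : ((ψM g : ℂ_[p]ˣ) : ℂ_[p]) ≠ 0 := (ψM g).ne_zero
    apply mul_left_cancel₀ h4
    rw [mul_zero, h2]
    ring
  have h20 : (2 : ℂ_[p]) ≠ 0 := two_ne_zero
  obtain ⟨b, hb⟩ := hw x2 hx2
  have hb0 : b ≠ 0 := by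
    rintro rfl
    rw [zero_smul] at hb
    have h1 : x1 = 0 := inj_odd θ hL hF hγ hs hx1 (fun j => by
      have h2 := key j
      rw [hb, map_zero, mul_zero, add_zero] at h2
      exact h2)
    rw [hb, h1, add_zero] at hsum
    exact (smul_eq_zero.1 hsum).elim h20 hX0
  apply mul_left_cancel₀ hb0
  rw [mul_zero, Finset.mul_sum]
  have h1 := hm x1 hx1
  have h2 : ∑ j, b * (m j * (ε j * logLin hL (inc.comp (γ j : M →+* M)) w)) +
      ∑ j, m j * logLin hL (inc.comp (γ j : M →+* M)) x1 = 0 := by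
    rw [← Finset.sum_add_distrib]
    refine Finset.sum_eq_zero fun j _ => ?_
    have h3 := key j
    rw [hb, map_smul, smul_eq_mul] at h3
    linear_combination m j * h3
  rw [h1, add_zero] at h2
  exact h2

end fail

end Pool.Agent.V7H53.SY
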