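import Pool.Agent.V7H53.SY.Dim

set_option autoImplicit false
set_option linter.unusedSectionVars false

/-!
# The hyperplane theorem with dependent coefficients
-/

namespace Pool.Agent.V7H53.SY

open NumberField TensorProduct Pool.Agent.W289.SL Pool.Agent.W332.SL6 Pool.Agent.V7H53.SX
open Pool.Agent.W254.PA (exists_theta LgP Hyp LtE)

variable {p : ℕ} [Fact p.Prime]

/-- reduction to independent coefficients -/
lemma hyp_gen {J : Type} [Fintype J] (m : J → ℂ_[p]) :
    ∃ (r : ℕ) (A : J → Fin r → ℂ_[p]) (μ : Fin r → ℂ_[p]), r ≤ Fintype.card J ∧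
      (∀ j l, IsAlgebraic ℚ (A j l)) ∧ LinearIndependent (algebraicClosure ℚ ℂ_[p]) μ ∧
      (∀ j, m j = ∑ l, A j l * μ l) ∧
      (¬ LinearIndependent (algebraicClosure ℚ ℂ_[p]) m → r < Fintype.card J) := by
  classical
  have : Module.Finite (algebraicClosure ℚ ℂ_[p])
      (Submodule.span (algebraicClosure ℚ ℂ_[p]) (Set.range m)) :=
    FiniteDimensional.span_of_finite _ (Set.finite_range m)
  obtain ⟨μ, hμ1, hμ2, hμ3⟩ := Submodule.exists_fun_fin_finrank_span_eq
    (algebraicClosure ℚ ℂ_[p]) (Set.range m)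
  have h1 : ∀ j, ∃ a : Fin _ → algebraicClosure ℚ ℂ_[p], ∑ l, a l • μ l = m j := by
    intro j
    rw [← Submodule.mem_span_range_iff_exists_fun, hμ2]
    exact Submodule.subset_span ⟨j, rfl⟩
  choose A hA using h1
  have hle : Module.finrank (algebraicClosure ℚ ℂ_[p])
      (Submodule.span (algebraicClosure ℚ ℂ_[p]) (Set.range m)) ≤ Fintype.card J :=
    finrank_range_le_card m
  refine ⟨_, fun j l => (A j l : ℂ_[p]), μ, hle, fun j l => mem_algebraicClosure_iff.1 (A j l).2,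
    hμ3, fun j => (hA j).symm, fun hdep => ?_⟩
  refine lt_of_le_of_ne hle fun heq => hdep ?_
  rw [linearIndependent_iff_card_eq_finrank_span]
  exact heq.symm

/-- the hyperplane theorem for a finite family of points -/
lemma hyp_pts {r : ℕ} (μ : Fin r → ℂ_[p]) (hμ : LinearIndependent (algebraicClosure ℚ ℂ_[p]) μ)
    {P : Type} [Fintype P] (a : P → Fin r → ℂ_[p])
    (ha : ∀ j i, a j i ∈ LtE ((LgP p (𝕂 := ℂ_[p])) : Set ℂ_[p]))
    (h0 : ∀ j, ∑ i, μ i * a j i = 0)
    (hli : LinearIndependent (algebraicClosure ℚ ℂ_[p]) a) :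
    Fintype.card P ≤ r * (r - 1) := by
  classical
  let e := Fintype.equivFin P
  refine hypC (p := p) r (Fintype.card P) μ (fun i j => a (e.symm j) i) hμ
    (fun i j => ha _ _) (fun j => h0 _) ?_
  exact hli.comp e.symm e.symm.injective

lemma LtE_smul {c z : ℂ_[p]} (hc : IsAlgebraic ℚ c)
    (hz : z ∈ LtE ((LgP p (𝕂 := ℂ_[p])) : Set ℂ_[p])) :
    c * z ∈ LtE ((LgP p (𝕂 := ℂ_[p])) : Set ℂ_[p]) :=
  Submodule.smul_mem _ (⟨c, mem_algebraicClosure_iff.2 hc⟩ : algebraicClosure ℚ ℂ_[p]) hz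

end Pool.Agent.V7H53.SY
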