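import Pool.Agent.V7H53.SY.HypG

set_option autoImplicit false
set_option linter.unusedSectionVars false

/-!
# Characters which are odd at one place: bases, and injectivity of the `p`-adic logarithms
-/

namespace Pool.Agent.V7H53.SY

open NumberField TensorProduct Pool.Agent.W289.SL Pool.Agent.W332.SL6 Pool.Agent.V7H53.SX
open Pool.Agent.W254.PA (exists_theta LgP Hyp LtE)

variable {p : ℕ} [Fact p.Prime]

section signs

variable {F M : Type} [Field F] [NumberField F] [IsTotallyReal F] [Field M] [NumberField M]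
  [Algebra F M] [FiniteDimensional F M] [IsGalois F M]

open Classical in
/-- odd at `v₀` only -/
noncomputable def sgo (p : ℕ) [Fact p.Prime] (v₀ : F →+* ℂ) (v : F →+* ℂ) : ℂ_[p] :=
  if v = v₀ then -1 else 1

open Classical in
/-- even at `v₀` only -/
noncomputable def sge (p : ℕ) [Fact p.Prime] (v₀ : F →+* ℂ) (v : F →+* ℂ) : ℂ_[p] :=
  if v = v₀ then 1 else -1

lemma sgo_self (v₀ : F →+* ℂ) : sgo p v₀ v₀ = -1 := if_pos rfl
lemma sge_self (v₀ : F →+* ℂ) : sge p v₀ v₀ = 1 := if_pos rfl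
lemma sgo_ne {v₀ v : F →+* ℂ} (h : v ≠ v₀) : sgo p v₀ v = 1 := if_neg h
lemma sge_ne {v₀ v : F →+* ℂ} (h : v ≠ v₀) : sge p v₀ v = -1 := if_neg h

lemma one_ne_neg_one : (1 : ℂ_[p]) ≠ -1 := by
  intro h
  have h2 : (2 : ℂ_[p]) = 0 := by linear_combination h
  exact two_ne_zero h2

lemma ne_one_of_sign {ψ : (M ≃ₐ[F] M) →* ℂ_[p]ˣ} {s : (F →+* ℂ) → ℂ_[p]}
    (hs : SignAt ψ s) {v : F →+* ℂ} (hv : s v = -1) : ψ ≠ 1 := by
  rintro rfl
  obtain ⟨t, ht⟩ := exists_extC (M := M) v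
  obtain ⟨g, hg⟩ := exists_conjF (F := F) t
  have h1 := hs t g hg
  rw [ht, hv, MonoidHom.one_apply, Units.val_one] at h1
  exact one_ne_neg_one h1

variable {inc : M →+* ℂ_[p]} {γ : (F →+* ℂ_[p]) → (M ≃ₐ[ℚ] M)}

open Classical in
lemma D_odd (hγ : ∀ j, (inc.comp (γ j : M →+* M)).comp (algebraMap F M) = j)
    {v₀ : F →+* ℂ} {t₀ : M →+* ℂ} (ht₀ : t₀.comp (algebraMap F M) = v₀) {c : M ≃ₐ[F] M}
    (hc : ∀ y, t₀ (c y) = star (t₀ y))
    {ψ : (M ≃ₐ[F] M) →* ℂ_[p]ˣ} (hs : SignAt ψ (sgo p v₀)) {x : UM p M}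
    (hx : InChi ψ x) (i j : F →+* ℂ_[p]) :
    push (cj c (γ i)) (push (γ j : M →+* M) x) =
      (if i = j then (-1 : ℂ_[p]) else 1) • push (γ j : M →+* M) x := by
  obtain ⟨v, hv, h⟩ := cj_push hγ t₀ c hc hs hx i j
  rw [h, ht₀] at *
  by_cases hij : i = j
  · rw [if_pos hij, hv.2 hij, sgo_self]
  · rw [if_neg hij, sgo_ne (fun h1 => hij (hv.1 h1))]

open Classical in
lemma D_even (hγ : ∀ j, (inc.comp (γ j : M →+* M)).comp (algebraMap F M) = j)
    {v₀ : F →+* ℂ} {t₀ : M →+* ℂ} (ht₀ : t₀.comp (algebraMap F M) = v₀) {c : M ≃ₐ[F] M}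
    (hc : ∀ y, t₀ (c y) = star (t₀ y))
    {ψ : (M ≃ₐ[F] M) →* ℂ_[p]ˣ} (hs : SignAt ψ (sge p v₀)) {x : UM p M}
    (hx : InChi ψ x) (i j : F →+* ℂ_[p]) :
    push (cj c (γ i)) (push (γ j : M →+* M) x) =
      (if i = j then (1 : ℂ_[p]) else -1) • push (γ j : M →+* M) x := by
  obtain ⟨v, hv, h⟩ := cj_push hγ t₀ c hc hs hx i j
  rw [h, ht₀] at *
  by_cases hij : i = j
  · rw [if_pos hij, hv.2 hij, sge_self]
  · rw [if_neg hij, sge_ne (fun h1 => hij (hv.1 h1))]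

lemma card_J : Fintype.card (F →+* ℂ_[p]) = Module.finrank ℚ F := Embeddings.card F ℂ_[p]

variable [IsTotallyComplex M]

/-- the eigenspace of a character which is odd at one place only -/
theorem basis_odd (θ : ℂ_[p] ≃+* ℂ) {v₀ : F →+* ℂ} {ψ : (M ≃ₐ[F] M) →* ℂ_[p]ˣ}
    (hs : SignAt ψ (sgo p v₀)) :
    ∃ u : Fin (Module.finrank ℚ F - 1) → UM p M, (∀ k, u k ∈ AU p M) ∧ (∀ k, InChi ψ (u k)) ∧
      LinearIndependent ℂ_[p] u ∧
      ∀ x : UM p M, InChi ψ x → ∃ a : Fin (Module.finrank ℚ F - 1) → ℂ_[p],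
        x = ∑ k, a k • u k := by
  classical
  have hcard : Fintype.card {v : F →+* ℂ // v ≠ v₀} = Module.finrank ℚ F - 1 := by
    rw [Fintype.card_subtype_compl, Embeddings.card F ℂ]
    simp
  rw [← hcard]
  refine exists_basis θ (ne_one_of_sign hs (sgo_self v₀)) hs (fun v => v.1)
    Subtype.val_injective (fun v => sgo_ne v.2) (fun v hv => ?_)
  refine ⟨⟨v, ?_⟩, rfl⟩
  rintro rfl
  exact hv (sgo_self _)

/-- the eigenspace of a character which is even at one place only -/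
theorem gen_even (θ : ℂ_[p] ≃+* ℂ) {v₀ : F →+* ℂ} (hF : 2 ≤ Module.finrank ℚ F)
    {ψ : (M ≃ₐ[F] M) →* ℂ_[p]ˣ} (hs : SignAt ψ (sge p v₀)) :
    ∃ w : UM p M, w ∈ AU p M ∧ InChi ψ w ∧ w ≠ 0 ∧
      ∀ x : UM p M, InChi ψ x → ∃ a : ℂ_[p], x = a • w := by
  classical
  obtain ⟨v, hv⟩ : ∃ v : F →+* ℂ, v ≠ v₀ := by
    by_contra hcon
    push Not at hcon
    have h1 : Fintype.card (F →+* ℂ) ≤ 1 := Fintype.card_le_one_iff.2 fun a b => by
      rw [hcon a, hcon b]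
    rw [Embeddings.card F ℂ] at h1
    omega
  obtain ⟨u, hu1, hu2, hu3, hu4⟩ := exists_basis (V := Unit) θ (ne_one_of_sign hs (sge_ne hv)) hs
    (fun _ => v₀) (fun _ _ _ => rfl) (fun _ => sge_self v₀) (fun v' hv' => ⟨(), by
      by_contra h1
      exact hv' (sge_ne (fun h2 => h1 h2.symm))⟩)
  have hpos : 0 < Fintype.card Unit := by simp
  refine ⟨u ⟨0, hpos⟩, hu1 _, hu2 _, hu3.ne_zero _, fun x hx => ?_⟩
  obtain ⟨a, rfl⟩ := hu4 x hx
  refine ⟨a ⟨0, hpos⟩, ?_⟩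
  rw [Finset.sum_eq_single (⟨0, hpos⟩ : Fin (Fintype.card Unit))]
  · intro b _ hb
    exfalso
    apply hb
    ext
    have h1 := b.2
    have h2 : Fintype.card Unit = 1 := by simp
    simp only
    omega
  · intro h
    exact absurd (Finset.mem_univ _) h

end signs

section inj

variable {F M : Type} [Field F] [NumberField F] [IsTotallyReal F] [Field M] [NumberField M]
  [Algebra F M] [FiniteDimensional F M] [IsGalois F M] [IsTotallyComplex M]
  {inc : M →+* ℂ_[p]} {γ : (F →+* ℂ_[p]) → (M ≃ₐ[ℚ] M)}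

lemma sum_inChi {ψ : (M ≃ₐ[F] M) →* ℂ_[p]ˣ} {ι : Type} (s : Finset ι) (a : ι → ℂ_[p])
    (u : ι → UM p M) (hu : ∀ k ∈ s, InChi ψ (u k)) : InChi ψ (∑ k ∈ s, a k • u k) := by
  intro τ
  rw [map_sum, Finset.smul_sum]
  refine Finset.sum_congr rfl fun k hk => ?_
  rw [map_smul, hu k hk τ, smul_comm]

/-- **Injectivity** for base fields of degree two and three. -/
theorem inj_odd (θ : ℂ_[p] ≃+* ℂ) {L : ℂ_[p] → ℂ_[p]} (hL : IsIwasawaLog p L)
    (hF : Module.finrank ℚ F = 2 ∨ Module.finrank ℚ F = 3)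
    (hγ : ∀ j, (inc.comp (γ j : M →+* M)).comp (algebraMap F M) = j) {v₀ : F →+* ℂ}
    {ψ : (M ≃ₐ[F] M) →* ℂ_[p]ˣ} (hs : SignAt ψ (sgo p v₀)) {x : UM p M} (hx : InChi ψ x)
    (h : ∀ j, logLin hL (inc.comp (γ j : M →+* M)) x = 0) : x = 0 := by
  classical
  obtain ⟨t₀, ht₀⟩ := exists_extC (M := M) v₀
  obtain ⟨c, hc⟩ := exists_conjF (F := F) t₀
  obtain ⟨u, hu1, hu2, hu3, hu4⟩ := basis_odd (M := M) θ hs
  obtain ⟨a, rfl⟩ := hu4 x hx
  obtain ⟨r, A, μ, hr, hA, hμ, ham, -⟩ := hyp_gen a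
  rw [Fintype.card_fin] at hr
  by_contra hne
  let X : Fin r → UM p M := fun l => ∑ k, A k l • u k
  have hXA : ∀ l, X l ∈ AU p M := fun l =>
    Submodule.sum_mem _ fun k _ => smul_mem_AU (hu1 k) (hA k l)
  have hXχ : ∀ l, InChi ψ (X l) := fun l => sum_inChi _ _ _ fun k _ => hu2 k
  have hsum : ∑ k, a k • u k = ∑ l, μ l • X l := by
    simp only [X, Finset.smul_sum]
    rw [Finset.sum_comm]
    refine Finset.sum_congr rfl fun k _ => ?_
    rw [ham, Finset.sum_smul]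
    refine Finset.sum_congr rfl fun l _ => ?_
    rw [smul_smul, mul_comm]
  obtain ⟨l₀, hl₀⟩ : ∃ l, X l ≠ 0 := by
    by_contra hcon
    push Not at hcon
    apply hne
    rw [hsum]
    exact Finset.sum_eq_zero fun l _ => by rw [hcon, smul_zero]
  have hcard : 2 ≤ Fintype.card (F →+* ℂ_[p]) := by rw [card_J]; omega
  have hli : LinearIndependent (algebraicClosure ℚ ℂ_[p])
      (fun (j : F →+* ℂ_[p]) (l : Fin r) => logLin hL (inc.comp (γ j : M →+* M)) (X l)) := by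
    rw [Fintype.linearIndependent_iff]
    intro g hg j
    have h3 := congrFun hg l₀
    rw [Finset.sum_apply] at h3
    have h4 : ∑ j, (g j : ℂ_[p]) * logLin hL (inc.comp (γ j : M →+* M)) (X l₀) = 0 := h3
    have h5 : ∑ j, (g j : ℂ_[p]) • push (γ j : M →+* M) (X l₀) = 0 := by
      apply eq_zero_of_log hL inc (Submodule.sum_mem _ fun j _ =>
        smul_mem_AU (push_mem_AU _ (hXA l₀)) (mem_algebraicClosure_iff.1 (g j).2))
      rw [map_sum, ← h4]
      refine Finset.sum_congr rfl fun j _ => ?_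
      rw [map_smul, smul_eq_mul, logLin_push]
    have h6 := separate1 hcard (fun i => push (cj c (γ i)))
      (fun j => (g j : ℂ_[p]) • push (γ j : M →+* M) (X l₀)) (fun i j => by
        rw [map_smul, D_odd hγ ht₀ hc hs (hXχ l₀) i j, smul_comm]) h5 j
    rcases smul_eq_zero.1 h6 with h7 | h7
    · exact Subtype.ext h7
    · exact absurd h7 (push_ne_zero θ _ hl₀)
  have h8 := hyp_pts μ hμ _ (fun j l => logLin_mem hL _ (hXA l)) (fun j => by
    have h9 := h j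
    rw [hsum, map_sum] at h9
    rw [← h9]
    refine Finset.sum_congr rfl fun l _ => ?_
    rw [map_smul, smul_eq_mul]) hli
  rw [card_J] at h8
  rcases hF with hF | hF
  · rw [hF] at h8 hr
    have h9 : r * (r - 1) ≤ 1 * (1 - 1) := Nat.mul_le_mul hr (Nat.sub_le_sub_right hr 1)
    omega
  · rw [hF] at h8 hr
    have h9 : r * (r - 1) ≤ 2 * (2 - 1) := Nat.mul_le_mul hr (Nat.sub_le_sub_right hr 1)
    omega

end inj

end Pool.Agent.V7H53.SY
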