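import Pool.Agent.V7H53.SY.Fl

set_option autoImplicit false
set_option linter.unusedSectionVars false

/-!
# At most one pair of CM types, and transport to a large field
-/

namespace Pool.Agent.V7H53.SY

open NumberField TensorProduct Pool.Agent.W289.SL Pool.Agent.W332.SL6 Pool.Agent.V7H53.SX
open Pool.Agent.W254.PA (exists_theta LgP Hyp LtE)

variable {p : ℕ} [Fact p.Prime]

section coeff

variable {F M : Type} [Field F] [NumberField F] [IsTotallyReal F] [Field M] [NumberField M]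
  [Algebra F M] [FiniteDimensional F M] [IsGalois F M] [IsTotallyComplex M]
  {inc : M →+* ℂ_[p]} {γ : (F →+* ℂ_[p]) → (M ≃ₐ[ℚ] M)}

/-- if there is a failure then no coefficient of the relation vanishes -/
theorem all_coeff (θ : ℂ_[p] ≃+* ℂ) {L : ℂ_[p] → ℂ_[p]} (hL : IsIwasawaLog p L)
    (hF : Module.finrank ℚ F = 2 ∨ Module.finrank ℚ F = 3)
    (hγ : ∀ j, (inc.comp (γ j : M →+* M)).comp (algebraMap F M) = j) {v₀ : F →+* ℂ}
    {ψ : (M ≃ₐ[F] M) →* ℂ_[p]ˣ} (hs : SignAt ψ (sgo p v₀))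
    (m : (F →+* ℂ_[p]) → ℂ_[p]) (hm0 : ∃ j, m j ≠ 0)
    (hm : ∀ x : UM p M, InChi ψ x → ∑ j, m j * logLin hL (inc.comp (γ j : M →+* M)) x = 0)
    (ψ' : (M ≃ₐ[F] M) →* ℂ_[p]ˣ) (hs' : SignAt ψ' (sge p v₀)) (w : UM p M) (hwA : w ∈ AU p M)
    (hwχ : InChi ψ' w) (hw0 : w ≠ 0) (ε : (F →+* ℂ_[p]) → ℂ_[p])
    (hε : ∀ j, ε j = 1 ∨ ε j = -1)
    (hrel : ∑ j, m j * (ε j * logLin hL (inc.comp (γ j : M →+* M)) w) = 0)
    (j : F →+* ℂ_[p]) : m j ≠ 0 := by
  classical
  intro hj
  obtain ⟨t₀, ht₀⟩ := exists_extC (M := M) v₀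
  obtain ⟨c, hc⟩ := exists_conjF (F := F) t₀
  rcases hF with hF | hF
  · obtain ⟨j₁, hj₁⟩ := hm0
    obtain ⟨j₂, hj₂, hj₂'⟩ := two_coeff θ hL (by omega) hs m hm j₁ hj₁
    have h1 : ({j, j₁, j₂} : Finset (F →+* ℂ_[p])).card = 3 := by
      rw [Finset.card_eq_three]
      refine ⟨j, j₁, j₂, ?_, ?_, Ne.symm hj₂, rfl⟩
      · rintro rfl
        exact hj₁ hj
      · rintro rfl
        exact hj₂' hj
    have h2 := Finset.card_le_univ ({j, j₁, j₂} : Finset (F →+* ℂ_[p]))
    rw [h1, card_J, hF] at h2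
    omega
  · obtain ⟨r, A, μ, -, hA, hμ, hmA, hr⟩ := hyp_gen m
    have hr' := hr (fun h => h.ne_zero j hj)
    rw [card_J] at hr'
    have h1 := count_core (ι := Unit) θ hL hs m hm (fun _ => ψ') (fun _ _ _ => rfl)
      (fun _ => hs') (fun _ => w) (fun _ => hwA) (fun _ => hwχ) (fun _ => hw0) (fun _ => ε)
      (fun _ j => by
        rcases hε j with h | h <;> rw [h]
        · exact isAlgebraic_one
        · exact isAlgebraic_one.neg)
      (fun _ j => by
        rcases hε j with h | h <;> rw [h]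
        · exact one_ne_zero
        · exact neg_ne_zero.2 one_ne_zero)
      (fun _ => hrel) A μ hA hμ hmA
      (fun U b hU h => by
        obtain ⟨j₀, hj₀⟩ := hm0
        obtain ⟨l, hl⟩ : ∃ l, A j₀ l ≠ 0 := by
          by_contra hcon
          push Not at hcon
          apply hj₀
          rw [hmA]
          exact Finset.sum_eq_zero fun l _ => by rw [hcon l, zero_mul]
        refine ⟨j₀, ?_⟩
        have h2 := separate (by rw [card_J]; omega) (fun i => push (cj c (γ i)))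
          (fun j => A j l • push (γ j : M →+* M) U)
          (fun j => A j l • push (γ j : M →+* M) (∑ i, (b i * ε j) • w))
          (fun i j => by
            rw [map_smul, D_odd hγ ht₀ hc hs hU i j, smul_comm])
          (fun i j => by
            rw [map_smul, map_sum, map_sum, smul_comm,
              Finset.smul_sum (r := if i = j then _ else _)]
            congr 1
            refine Finset.sum_congr rfl fun q _ => ?_
            rw [map_smul, map_smul, D_even hγ ht₀ hc hs' hwχ i j, smul_comm])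
          (by
            rw [← h l]
            refine Finset.sum_congr rfl fun j _ => ?_
            rw [map_add, smul_add])
        have h3 := (smul_eq_zero.1 (h2.1 j₀)).resolve_left hl
        have h4 := (smul_eq_zero.1 (h2.2 j₀)).resolve_left hl
        by_contra h5
        exact push_ne_zero θ (γ j₀ : M →+* M) h5 (by rw [map_add, h3, h4, add_zero]))
    rw [hF, Fintype.card_unit] at h1
    rw [hF] at hr'
    have h9 : r * (r - 1) ≤ 2 * (2 - 1) := Nat.mul_le_mul (by omega) (by omega)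
    omega

end coeff

section pair

variable {F K M : Type} [Field F] [NumberField F] [IsTotallyReal F] [Field K] [NumberField K]
  [IsTotallyComplex K] [Field M] [NumberField M] [IsTotallyComplex M] [Algebra F K] [Algebra F M]
  [Algebra K M] [IsScalarTower F K M] [IsGalois F K] [FiniteDimensional F M] [IsGalois F M]
  {inc : M →+* ℂ_[p]} {γ : (F →+* ℂ_[p]) → (M ≃ₐ[ℚ] M)}

/-- **Two failures over the same field.** -/
theorem pair_M (θ : ℂ_[p] ≃+* ℂ) {L : ℂ_[p] → ℂ_[p]} (hL : IsIwasawaLog p L)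
    (hF : Module.finrank ℚ F = 2 ∨ Module.finrank ℚ F = 3)
    (hγ : ∀ j, (inc.comp (γ j : M →+* M)).comp (algebraMap F M) = j) {v₀ : F →+* ℂ}
    {ψM : (M ≃ₐ[F] M) →* ℂ_[p]ˣ} (hs : SignAt ψM (sgo p v₀))
    (hK : Nat.card (K ≃ₐ[F] K) = 2) (S S' : Set (K →+* ℂ_[p])) (hS : IsCMType p F K S)
    (hS' : IsCMType p F K S')
    (X X' : UM p M) (hX0 : X ≠ 0) (hX0' : X' ≠ 0)
    (hX : ∀ g : M ≃ₐ[F] M, g.restrictNormal K = 1 →
      push (g : M →+* M) X = ((ψM g : ℂ_[p]ˣ) : ℂ_[p]) • X)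
    (hX' : ∀ g : M ≃ₐ[F] M, g.restrictNormal K = 1 →
      push (g : M →+* M) X' = ((ψM g : ℂ_[p]ˣ) : ℂ_[p]) • X')
    (hlog : ∀ σ : M →+* ℂ_[p], σ.comp (algebraMap K M) ∈ S → logLin hL σ X = 0)
    (hlog' : ∀ σ : M →+* ℂ_[p], σ.comp (algebraMap K M) ∈ S' → logLin hL σ X' = 0) :
    S' = S ∨ S' = Sᶜ := by
  classical
  obtain ⟨m, hm0, hm⟩ := exists_rel_vec (M := M) θ hL hs
    (fun j => inc.comp (γ j : M →+* M))
  have hs' := sign_mul_odd (K := K) hK hs
  obtain ⟨w, hwA, hwχ, hw0, hw⟩ := gen_even (M := M) θ (by omega) hs'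
  obtain ⟨ε, hε, hεS, hrel⟩ := fail_eps θ hL hF hγ hs m hm hK S hS X hX0 hX hlog w hw
  obtain ⟨ε', hε', hεS', hrel'⟩ := fail_eps θ hL hF hγ hs m hm hK S' hS' X' hX0' hX' hlog' w hw
  have hmj := all_coeff θ hL hF hγ hs m hm0 hm _ hs' w hwA hwχ hw0 ε hε hrel
  have hcard : Fintype.card (F →+* ℂ_[p]) ≤ 3 := by rw [card_J]; omega
  have hsg := signs hcard (fun j => m j * logLin hL (inc.comp (γ j : M →+* M)) w)
    (fun j => mul_ne_zero (hmj j) (fun h => hw0 (eq_zero_of_log hL _ hwA h))) ε ε' hε hε'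
    (by
      rw [← hrel]
      exact Finset.sum_congr rfl fun j _ => by ring)
    (by
      rw [← hrel']
      exact Finset.sum_congr rfl fun j _ => by ring)
  have hall : ∀ s : K →+* ℂ_[p], ∃ (j : F →+* ℂ_[p]) (g : M ≃ₐ[F] M),
      ((inc.comp (γ j : M →+* M)).comp (g : M →+* M)).comp (algebraMap K M) = s := by
    intro s
    have : Algebra.IsAlgebraic K M := Algebra.IsAlgebraic.tower_top (K := ℚ) K
    obtain ⟨σ, hσ⟩ := exists_ext (H := M) s
    obtain ⟨g, hg⟩ := exists_aut (K := F) σ (inc.comp (γ (σ.comp (algebraMap F M)) : M →+* M))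
      (hγ _).symm
    exact ⟨_, g, by rw [← hg, hσ]⟩
  have hη : ∀ g : M ≃ₐ[F] M, ((sgnM p F K M hK g : ℂ_[p]ˣ) : ℂ_[p]) = 1 ∨
      ((sgnM p F K M hK g : ℂ_[p]ˣ) : ℂ_[p]) = -1 := by
    intro g
    by_cases hg : g.restrictNormal K = 1
    · left
      rw [(sgnM_eq_one hK g).2 hg, Units.val_one]
    · right
      have h1 : sgnM p F K M hK g = -1 := sgn_of_ne hK hg
      rw [h1, Units.val_neg, Units.val_one]
  rcases hsg with h | h
  · left
    ext s
    obtain ⟨j, g, rfl⟩ := hall s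
    rw [hεS, hεS', h]
  · right
    ext s
    obtain ⟨j, g, rfl⟩ := hall s
    rw [Set.mem_compl_iff, hεS, hεS', h]
    rcases hη g with h1 | h1 <;> rcases hε j with h2 | h2 <;> rw [h1, h2]
    · exact ⟨fun h3 => absurd h3 one_ne_neg_one, fun h3 => absurd rfl h3⟩
    · rw [neg_neg]
      exact ⟨fun _ => one_ne_neg_one, fun _ => rfl⟩
    · exact ⟨fun _ => one_ne_neg_one.symm, fun _ => rfl⟩
    · rw [neg_neg]
      exact ⟨fun h3 => absurd h3.symm one_ne_neg_one, fun h3 => absurd rfl h3⟩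

end pair

/-- extensions with the same image are isomorphic -/
lemma iso_of_range_alg {F K₁ K₂ M : Type} [Field F] [Field K₁] [Field K₂] [Field M]
    [Algebra F K₁] [Algebra F K₂] [Algebra F M] (f₁ : K₁ →ₐ[F] M) (f₂ : K₂ →ₐ[F] M)
    (h : ∀ z, (∃ x, f₁ x = z) ↔ ∃ x, f₂ x = z) : Nonempty (K₁ ≃ₐ[F] K₂) := by
  have h1 : f₁.range = f₂.range := by
    ext z
    exact h z
  exact ⟨((AlgEquiv.ofInjectiveField f₁).trans (Subalgebra.equivOfEq _ _ h1)).trans
    (AlgEquiv.ofInjectiveField f₂).symm⟩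

section toM

variable {F E K H M : Type} [Field F] [NumberField F] [Field E] [NumberField E] [Algebra F E]
  [IsGalois F E] [Field K] [NumberField K] [Algebra F K]
  [Field H] [NumberField H] [Algebra K H] [Algebra E H] [Algebra F H] [IsScalarTower F K H]
  [IsScalarTower F E H] [IsGalois K H]
  [Field M] [NumberField M] [Algebra F M] [Algebra E M] [IsScalarTower F E M] [IsGalois F M]

/-- transport of a failure to `M` -/
theorem to_MF (θ : ℂ_[p] ≃+* ℂ) (ψ : (E ≃ₐ[F] E) →* ℂ_[p]ˣ)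
    {L : ℂ_[p] → ℂ_[p]} (hL : IsIwasawaLog p L) (τ : H →+* M)
    (hτ : τ.comp (algebraMap E H) = algebraMap E M) (χ : (H ≃ₐ[K] H) →* ℂ_[p]ˣ)
    (hχ : ∀ (τ : H ≃ₐ[K] H) (g : E ≃ₐ[F] E),
      (∀ e : E, τ (algebraMap E H e) = algebraMap E H (g e)) → χ τ = ψ g)
    (S : Set (K →+* ℂ_[p])) (h : ¬ SigmaLeopoldt p K H S χ) :
    ∃ X : UM p M, X ≠ 0 ∧
      (∀ g : M ≃ₐ[F] M, (∀ y : K, g (τ (algebraMap K H y)) = τ (algebraMap K H y)) →
        push (g : M →+* M) X = ((psiM M ψ g : ℂ_[p]ˣ) : ℂ_[p]) • X) ∧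
      ∀ σ : M →+* ℂ_[p], σ.comp (τ.comp (algebraMap K H)) ∈ S → logLin hL σ X = 0 := by
  letI aH : Algebra H M := τ.toAlgebra
  letI aK : Algebra K M := (τ.comp (algebraMap K H)).toAlgebra
  haveI t₁ : IsScalarTower K H M := IsScalarTower.of_algebraMap_eq fun x => rfl
  haveI t₂ : IsScalarTower E H M := IsScalarTower.of_algebraMap_eq fun x =>
    (RingHom.congr_fun hτ x).symm
  unfold SigmaLeopoldt at h
  push Not at h
  obtain ⟨L', hL', x, hx, hx1', hx0⟩ := h
  have hx1 : ∀ σ : H →+* ℂ_[p], σ.comp (algebraMap K H) ∈ S → logLin hL σ x = 0 := by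
    intro σ hσ
    rw [logLin_unique hL hL']
    exact hx1' σ hσ
  refine ⟨push (algebraMap H M) x, push_ne_zero θ _ hx0, ?_, ?_⟩
  · intro g hgK
    let gK : M ≃ₐ[K] M := AlgEquiv.ofRingEquiv (f := g.toRingEquiv) hgK
    have hgK' : ∀ z, gK z = g z := fun z => rfl
    have h1 : ∀ z : H, algebraMap H M (gK.restrictNormal H z) = g (algebraMap H M z) := by
      intro z
      rw [AlgEquiv.restrictNormal_commutes, hgK']
    have h2 : χ (gK.restrictNormal H) = psiM M ψ g := by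
      refine hχ _ (g.restrictNormal E) fun e => ?_
      apply (algebraMap H M).injective
      rw [h1, ← IsScalarTower.algebraMap_apply, ← IsScalarTower.algebraMap_apply,
        AlgEquiv.restrictNormal_commutes]
    rw [← h2, push_push]
    have h3 : (g : M →+* M).comp (algebraMap H M) =
        (algebraMap H M).comp ((gK.restrictNormal H : H ≃ₐ[K] H) : H →+* H) := by
      ext z
      exact (h1 z).symm
    rw [h3, ← push_push, ← actLin_eq, hx, map_smul]
  · intro σ hσ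
    rw [logLin_push]
    apply hx1
    exact hσ

end toM

end Pool.Agent.V7H53.SY
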