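import Pool.Agent.V7H53.SX.Types

set_option autoImplicit false
set_option linter.unusedSectionVars false

/-!
# Separation of conjugate eigenvectors by complex conjugations
-/

namespace Pool.Agent.V7H53.SY

open NumberField TensorProduct Pool.Agent.W289.SL Pool.Agent.W332.SL6 Pool.Agent.V7H53.SX
open Pool.Agent.W254.PA (exists_theta LgP Hyp LtE)

variable {p : ℕ} [Fact p.Prime]

section sep

variable {J V : Type} [Fintype J] [DecidableEq J] [AddCommGroup V] [Module ℂ_[p] V]

/-- the formal separation argument, both signs -/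
lemma separate (hJ : 3 ≤ Fintype.card J) (D : J → V →ₗ[ℂ_[p]] V) (a b : J → V)
    (hDa : ∀ i j, D i (a j) = (if i = j then (-1 : ℂ_[p]) else 1) • a j)
    (hDb : ∀ i j, D i (b j) = (if i = j then (1 : ℂ_[p]) else -1) • b j)
    (h : ∑ j, (a j + b j) = 0) : (∀ j, a j = 0) ∧ ∀ j, b j = 0 := by
  classical
  rw [Finset.sum_add_distrib] at h
  have h2 : (2 : ℂ_[p]) ≠ 0 := two_ne_zero
  have hsa : ∀ i, D i (∑ j, a j) = ∑ j, a j - (2 : ℂ_[p]) • a i := by
    intro i
    rw [map_sum, Finset.sum_congr rfl (fun j _ => hDa i j)]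
    have h3 : ∀ j, (if i = j then (-1 : ℂ_[p]) else 1) • a j =
        a j - (if i = j then (2 : ℂ_[p]) • a j else 0) := by
      intro j
      split_ifs
      · rw [neg_smul, one_smul, two_smul]; abel
      · rw [one_smul, sub_zero]
    rw [Finset.sum_congr rfl (fun j _ => h3 j), Finset.sum_sub_distrib,
      Finset.sum_ite_eq Finset.univ i, if_pos (Finset.mem_univ _)]
  have hsb : ∀ i, D i (∑ j, b j) = (2 : ℂ_[p]) • b i - ∑ j, b j := by
    intro i
    rw [map_sum, Finset.sum_congr rfl (fun j _ => hDb i j)]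
    have h3 : ∀ j, (if i = j then (1 : ℂ_[p]) else -1) • b j =
        (if i = j then (2 : ℂ_[p]) • b j else 0) - b j := by
      intro j
      split_ifs
      · rw [one_smul, two_smul]; abel
      · rw [neg_smul, one_smul, zero_sub]
    rw [Finset.sum_congr rfl (fun j _ => h3 j), Finset.sum_sub_distrib,
      Finset.sum_ite_eq Finset.univ i, if_pos (Finset.mem_univ _)]
  -- `𝒜 = a i - b i`
  have hA : ∀ i, ∑ j, a j = a i - b i := by
    intro i
    have h3 := congrArg (D i) h
    rw [map_add, map_zero, hsa, hsb] at h3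
    have h4 : (2 : ℂ_[p]) • (∑ j, a j - (a i - b i)) = 0 := by
      have h5 : (2 : ℂ_[p]) • (∑ j, a j - (a i - b i)) =
          (∑ j, a j - (2 : ℂ_[p]) • a i + ((2 : ℂ_[p]) • b i - ∑ j, b j)) +
            (∑ j, a j + ∑ j, b j) := by
        rw [smul_sub, smul_sub, two_smul ℂ_[p] (∑ j, a j)]
        abel
      rw [h5, h3, h, add_zero]
    exact sub_eq_zero.1 ((smul_eq_zero.1 h4).resolve_left h2)
  -- `b i = - a k`
  have hB : ∀ i k, i ≠ k → b i = -a k := by
    intro i k hik
    have h3 := congrArg (D k) (hA i)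
    rw [hsa, map_sub, hDa, hDb, if_neg (Ne.symm hik), if_neg (Ne.symm hik), one_smul, neg_smul,
      one_smul, sub_neg_eq_add] at h3
    have h4 : (2 : ℂ_[p]) • (b i + a k) = 0 := by
      have h5 : (2 : ℂ_[p]) • (b i + a k) = (a i + b i) - (∑ j, a j - (2 : ℂ_[p]) • a k) +
          (∑ j, a j - (a i - b i)) := by
        rw [smul_add, two_smul ℂ_[p] (b i)]
        abel
      rw [h5, h3, ← hA i]
      abel
    exact eq_neg_of_add_eq_zero_left ((smul_eq_zero.1 h4).resolve_left h2)
  have hAA : ∀ k k', a k = a k' := by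
    intro k k'
    by_cases hkk : k = k'
    · rw [hkk]
    obtain ⟨i, hi⟩ : ∃ i, i ∉ ({k, k'} : Finset J) := by
      by_contra hcon
      push Not at hcon
      have h3 : (Finset.univ : Finset J) ⊆ {k, k'} := fun i _ => hcon i
      have h4 := Finset.card_le_card h3
      rw [Finset.card_univ, Finset.card_pair hkk] at h4
      omega
    rw [Finset.mem_insert, Finset.mem_singleton, not_or] at hi
    have h3 := hB i k hi.1
    have h4 := hB i k' hi.2
    rw [h3] at h4
    exact neg_injective h4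
  have ha : ∀ j, a j = 0 := by
    intro j
    obtain ⟨k, hk⟩ : ∃ k, k ≠ j := by
      by_contra hcon
      push Not at hcon
      have h3 : Fintype.card J ≤ 1 := Fintype.card_le_one_iff.2 fun x y => by rw [hcon x, hcon y]
      omega
    have h3 := hDa k j
    rw [if_neg hk, one_smul] at h3
    rw [hAA j k, hDa, if_pos rfl, neg_smul, one_smul] at h3
    have h4 : (2 : ℂ_[p]) • a k = 0 := by
      rw [two_smul]
      nth_rewrite 1 [← h3]
      exact neg_add_cancel _
    rw [hAA j k]
    exact (smul_eq_zero.1 h4).resolve_left h2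
  refine ⟨ha, fun i => ?_⟩
  have h3 := hA i
  rw [Finset.sum_eq_zero (fun j _ => ha j), ha i, zero_sub] at h3
  exact neg_eq_zero.1 h3.symm

/-- the formal separation argument, one sign -/
lemma separate1 (hJ : 2 ≤ Fintype.card J) (D : J → V →ₗ[ℂ_[p]] V) (a : J → V)
    (hDa : ∀ i j, D i (a j) = (if i = j then (-1 : ℂ_[p]) else 1) • a j)
    (h : ∑ j, a j = 0) (j : J) : a j = 0 := by
  classical
  have h2 : (2 : ℂ_[p]) ≠ 0 := two_ne_zero
  have h3 := congrArg (D j) h
  rw [map_sum, map_zero, Finset.sum_congr rfl (fun k _ => hDa j k)] at h3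
  have h4 : ∀ k, (if j = k then (-1 : ℂ_[p]) else 1) • a k =
      a k - (if j = k then (2 : ℂ_[p]) • a k else 0) := by
    intro k
    split_ifs
    · rw [neg_smul, one_smul, two_smul]; abel
    · rw [one_smul, sub_zero]
  rw [Finset.sum_congr rfl (fun k _ => h4 k), Finset.sum_sub_distrib,
    Finset.sum_ite_eq Finset.univ j, if_pos (Finset.mem_univ _), h, zero_sub, neg_eq_zero] at h3
  exact (smul_eq_zero.1 h3).resolve_left h2

end sep

section signs

variable {F M : Type} [Field F] [NumberField F] [IsTotallyReal F] [Field M] [NumberField M]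
  [Algebra F M] [FiniteDimensional F M] [IsGalois F M]

/-- the signs of a character of `Gal(M/F)` at the real places of `F` -/
def SignAt (ψ : (M ≃ₐ[F] M) →* ℂ_[p]ˣ) (s : (F →+* ℂ) → ℂ_[p]) : Prop :=
  ∀ (t : M →+* ℂ) (g : M ≃ₐ[F] M), (∀ y, t (g y) = star (t y)) →
    ((ψ g : ℂ_[p]ˣ) : ℂ_[p]) = s (t.comp (algebraMap F M))

lemma real_F (v : F →+* ℂ) : ComplexEmbedding.IsReal v := by
  rw [← InfinitePlace.isReal_mk_iff]
  exact IsTotallyReal.isReal _

lemma exists_conjF (t : M →+* ℂ) : ∃ g : M ≃ₐ[F] M, ∀ y, t (g y) = star (t y) := by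
  obtain ⟨τ, hτ⟩ := exists_aut (K := F) ((starRingEnd ℂ).comp t) t (by
    have h1 : ComplexEmbedding.IsReal (t.comp (algebraMap F M)) := real_F _
    exact h1)
  exact ⟨τ, fun y => (RingHom.congr_fun hτ y).symm⟩

variable {inc : M →+* ℂ_[p]} {γ : (F →+* ℂ_[p]) → (M ≃ₐ[ℚ] M)}

/-- the conjugate of a complex conjugation -/
noncomputable def cj (c : M ≃ₐ[F] M) (g : M ≃ₐ[ℚ] M) : M →+* M :=
  ((g : M →+* M).comp (c : M →+* M)).comp (g.symm : M →+* M)

lemma cj_apply (c : M ≃ₐ[F] M) (g : M ≃ₐ[ℚ] M) (y : M) : cj c g y = g (c (g.symm y)) := rfl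

/-- the action of the complex conjugations on the conjugate eigenvectors -/
lemma cj_push (hγ : ∀ j, (inc.comp (γ j : M →+* M)).comp (algebraMap F M) = j)
    (t₀ : M →+* ℂ) (c : M ≃ₐ[F] M) (hc : ∀ y, t₀ (c y) = star (t₀ y))
    {ψ : (M ≃ₐ[F] M) →* ℂ_[p]ˣ} {s : (F →+* ℂ) → ℂ_[p]} (hs : SignAt ψ s) {x : UM p M}
    (hx : InChi ψ x) (i j : F →+* ℂ_[p]) :
    ∃ v : F →+* ℂ, (v = t₀.comp (algebraMap F M) ↔ i = j) ∧
      push (cj c (γ i)) (push (γ j : M →+* M) x) = s v • push (γ j : M →+* M) x := by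
  let t : M →+* ℂ := t₀.comp (((γ i).symm : M →+* M).comp (γ j : M →+* M))
  have ht : ∀ y, t y = t₀ ((γ i).symm (γ j y)) := fun y => rfl
  obtain ⟨g, hg⟩ := exists_conjF (F := F) t
  refine ⟨t.comp (algebraMap F M), ?_, ?_⟩
  · constructor
    · intro h
      have h0 : (inc.comp (γ i : M →+* M)).comp (algebraMap F M) =
          (inc.comp (γ j : M →+* M)).comp (algebraMap F M) := by
        ext x
        have h1 := RingHom.congr_fun h x
        have h2 : t₀ ((γ i).symm (γ j (algebraMap F M x))) = t₀ (algebraMap F M x) := h1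
        have h3 := congrArg (γ i) (t₀.injective h2)
        rw [AlgEquiv.apply_symm_apply] at h3
        change inc (γ i (algebraMap F M x)) = inc (γ j (algebraMap F M x))
        rw [h3]
      rw [hγ, hγ] at h0
      exact h0
    · rintro rfl
      ext x
      change t₀ ((γ i).symm (γ i (algebraMap F M x))) = t₀ (algebraMap F M x)
      rw [AlgEquiv.symm_apply_apply]
  · have h1 : (cj c (γ i)).comp (γ j : M →+* M) = (γ j : M →+* M).comp (g : M →+* M) := by
      ext y
      change γ i (c ((γ i).symm (γ j y))) = γ j (g y)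
      have h2 := hg y
      rw [ht, ht, ← hc] at h2
      have h3 := t₀.injective h2
      rw [← h3, AlgEquiv.apply_symm_apply]
    rw [push_push, h1, ← push_push, ← actLin_eq (g : M →+* M), hx g, map_smul, hs t g hg]

end signs

end Pool.Agent.V7H53.SY
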